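import Pool.Agent.Run7.h390.BD.Rg
import Pool.Agent.Run7.h390.TP.Loc

/-!
# Algebras over algebraic extensions of finite prime fields

Owner helper390.
-/

set_option autoImplicit false

namespace Pool.Agent.Run7.h390.BD

open _root_.Run7.h909.TD _root_.Run7.h909.NC _root_.Run7.h909.GT
open Pool.Agent.Y110.FJ (ClosedE)
open Pool.Agent.Run7.h390.TP (td td_isDeg td_ne td_zero)
open MvPolynomial

section fin

variable {K : Type} [Field K] (p : ℕ) [Fact p.Prime] [Algebra (ZMod p) K]

/-- a finite subfield containing given elements -/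
theorem exists_fin [Algebra.IsAlgebraic (ZMod p) K] (S : Finset K) :
    ∃ K₀ : Subfield K, Finite K₀ ∧ ∀ x ∈ S, x ∈ K₀ := by
  have hfd : FiniteDimensional (ZMod p) (IntermediateField.adjoin (ZMod p) (S : Set K)) := by
    refine IntermediateField.finiteDimensional_adjoin (S := (S : Set K)) fun x _ => ?_
    exact (Algebra.IsAlgebraic.isAlgebraic (R := ZMod p) x).isIntegral
  have hf : Finite (IntermediateField.adjoin (ZMod p) (S : Set K)) := Module.finite_of_finite (ZMod p)
  exact ⟨(IntermediateField.adjoin (ZMod p) (S : Set K)).toSubfield, hf, fun x hx =>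
    IntermediateField.subset_adjoin _ _ hx⟩

variable {σ : Type} {K₀ : Subfield K}

/-- coefficientwise application of an additive map -/
noncomputable def La0 (l : K →ₗ[K₀] K₀) (g : MvPolynomial σ K) : MvPolynomial σ K₀ :=
  ∑ m ∈ g.support, monomial m (l (coeff m g))

theorem coeff_La0 (l : K →ₗ[K₀] K₀) (g : MvPolynomial σ K) (m : σ →₀ ℕ) :
    coeff m (La0 l g) = l (coeff m g) := by
  classical
  unfold La0
  rw [coeff_sum]
  simp only [coeff_monomial]
  rw [Finset.sum_ite_eq' g.support m]
  split_ifs with h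
  · rfl
  · rw [notMem_support_iff.1 h, map_zero]

theorem La0_mul (l : K →ₗ[K₀] K₀) (q : MvPolynomial σ K₀) (g : MvPolynomial σ K) :
    La0 l (map K₀.subtype q * g) = q * La0 l g := by
  classical
  ext m : 1
  rw [coeff_La0, coeff_mul, coeff_mul, map_sum]
  refine Finset.sum_congr rfl fun x _ => ?_
  rw [coeff_La0, coeff_map]
  have : K₀.subtype (coeff x.1 q) * coeff x.2 g = (coeff x.1 q) • coeff x.2 g := rfl
  rw [this, map_smul, smul_eq_mul]

theorem La0_add (l : K →ₗ[K₀] K₀) (g g' : MvPolynomial σ K) : La0 l (g + g') = La0 l g + La0 l g' := by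
  ext m : 1
  rw [coeff_La0, coeff_add, coeff_add, coeff_La0, coeff_La0, map_add]

theorem La0_sum (l : K →ₗ[K₀] K₀) {ι : Type} (s : Finset ι) (g : ι → MvPolynomial σ K) :
    La0 l (∑ i ∈ s, g i) = ∑ i ∈ s, La0 l (g i) := by
  classical
  induction s using Finset.induction_on with
  | empty =>
    rw [Finset.sum_empty, Finset.sum_empty]
    ext m : 1
    rw [coeff_La0, coeff_zero, map_zero, coeff_zero]
  | insert a s ha ih => rw [Finset.sum_insert ha, Finset.sum_insert ha, La0_add, ih]

theorem La0_map (l : K →ₗ[K₀] K₀) (hl : ∀ x : K₀, l (x : K) = x) (q : MvPolynomial σ K₀) :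
    La0 l (map K₀.subtype q) = q := by
  ext m : 1
  rw [coeff_La0, coeff_map]
  exact hl _

theorem La0_deg (l : K →ₗ[K₀] K₀) (g : MvPolynomial σ K) : (La0 l g).totalDegree ≤ g.totalDegree := by
  refine Finset.sup_le fun m hm => ?_
  refine le_totalDegree ?_
  rw [mem_support_iff] at hm ⊢
  intro h
  apply hm
  rw [coeff_La0, h, map_zero]

/-- a subring of finite type meets a subspace of finite dimension in a finite set -/
theorem sub_fin [Algebra.IsAlgebraic (ZMod p) K] {A : Type} [CommRing A] [Algebra K A]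
    [Algebra.FiniteType K A] (V : Submodule K A) [Module.Finite K V] {E : Set A} (hE : E.Finite) :
    {a : A | a ∈ Subring.closure E ∧ a ∈ V}.Finite := by
  classical
  obtain ⟨n, f, hf⟩ := Algebra.FiniteType.iff_quotient_mvPolynomial''.1
    (inferInstance : Algebra.FiniteType K A)
  obtain ⟨F, hF⟩ := (isNoetherianRing_iff_ideal_fg (MvPolynomial (Fin n) K)).1 inferInstance
    (RingHom.ker f)
  choose li hli using hf
  obtain ⟨T, hT⟩ := (Module.Finite.iff_fg.1 (inferInstance : Module.Finite K V))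
  obtain ⟨S, hS⟩ : ∃ S : Finset K, (∀ q ∈ F, q.coeffs ⊆ S) ∧ ∀ a ∈ E, (li a).coeffs ⊆ S := by
    refine ⟨F.biUnion coeffs ∪ hE.toFinset.biUnion fun a => (li a).coeffs, ?_, ?_⟩
    · intro q hq
      exact (Finset.subset_biUnion_of_mem coeffs hq).trans Finset.subset_union_left
    · intro a ha
      exact (Finset.subset_biUnion_of_mem (fun a => (li a).coeffs) (hE.mem_toFinset.2 ha)).trans
        Finset.subset_union_right
  obtain ⟨K₀, hK₀, hSK⟩ := exists_fin p S
  have hrange : ∀ q : MvPolynomial (Fin n) K, q.coeffs ⊆ S → ∃ q₀ : MvPolynomial (Fin n) K₀,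
      map K₀.subtype q₀ = q := by
    intro q hq
    refine mem_range_map_iff_coeffs_subset.2 fun x hx => ?_
    exact ⟨⟨x, hSK x (hq hx)⟩, rfl⟩
  obtain ⟨l, hl⟩ := LinearMap.exists_leftInverse_of_injective (Algebra.linearMap K₀ K)
    (LinearMap.ker_eq_bot.2 K₀.subtype_injective)
  have hl' : ∀ x : K₀, l (x : K) = x := fun x => LinearMap.congr_fun hl x
  -- the subspace lies in the image of the polynomials of bounded degree
  obtain ⟨d, hd⟩ : ∃ d : ℕ, ∀ a ∈ V, ∃ q : MvPolynomial (Fin n) K, q.totalDegree ≤ d ∧ f q = a := by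
    refine ⟨T.sup fun t => (li t).totalDegree, fun a ha => ?_⟩
    have h1 : V ≤ (restrictTotalDegree (Fin n) K (T.sup fun t => (li t).totalDegree)).map
        f.toLinearMap := by
      rw [← hT, Submodule.span_le]
      intro t ht
      refine ⟨li t, ?_, hli t⟩
      rw [SetLike.mem_coe, mem_restrictTotalDegree]
      exact Finset.le_sup (f := fun t => (li t).totalDegree) ht
    obtain ⟨q, hq, hqa⟩ := h1 ha
    exact ⟨q, (mem_restrictTotalDegree _ _ _).1 hq, hqa⟩
  have hsub : ∀ a ∈ Subring.closure E, ∃ q₀ : MvPolynomial (Fin n) K₀, f (map K₀.subtype q₀) = a := by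
    intro a ha
    have : Subring.closure E ≤ ((f : MvPolynomial (Fin n) K →+* A).comp (map K₀.subtype)).range := by
      rw [Subring.closure_le]
      intro e he
      obtain ⟨q₀, hq₀⟩ := hrange (li e) (hS.2 e he)
      refine ⟨q₀, ?_⟩
      change f (map K₀.subtype q₀) = e
      rw [hq₀, hli]
    exact this ha
  have hfd : Finite (restrictTotalDegree (Fin n) K₀ d) := by
    have : Module.Finite K₀ (restrictTotalDegree (Fin n) K₀ d) := inferInstance
    exact Module.finite_of_finite K₀
  refine ((Set.toFinite (restrictTotalDegree (Fin n) K₀ d : Set (MvPolynomial (Fin n) K₀))).image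
    fun q₀ => f (map K₀.subtype q₀)).subset ?_
  rintro a ⟨ha, haV⟩
  obtain ⟨q₀, hq₀⟩ := hsub a ha
  obtain ⟨q, hqd, hqa⟩ := hd a haV
  refine ⟨La0 l q, ?_, ?_⟩
  · rw [SetLike.mem_coe, mem_restrictTotalDegree]
    exact (La0_deg l q).trans hqd
  · have h1 : map K₀.subtype q₀ - q ∈ Ideal.span (F : Set (MvPolynomial (Fin n) K)) := by
      rw [hF, RingHom.mem_ker, map_sub, sub_eq_zero]
      exact hq₀.trans hqa.symm
    obtain ⟨c, hc⟩ := (Submodule.mem_span_finset'.1 h1)
    have h2 : map K₀.subtype q₀ = q + ∑ a, c a • (a : MvPolynomial (Fin n) K) := by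
      rw [hc]; ring
    have h3 := congrArg (La0 l) h2
    rw [La0_map l hl', La0_add, La0_sum] at h3
    have h4 : f (map K₀.subtype (∑ a, La0 l (c a • (a : MvPolynomial (Fin n) K)))) = 0 := by
      rw [map_sum, map_sum]
      refine Finset.sum_eq_zero fun b _ => ?_
      obtain ⟨b₀, hb₀⟩ := hrange b (hS.1 b b.2)
      have hb : f (b : MvPolynomial (Fin n) K) = 0 := by
        have : (b : MvPolynomial (Fin n) K) ∈ RingHom.ker f := by
          rw [← hF]; exact Ideal.subset_span b.2
        exact this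
      rw [smul_eq_mul, mul_comm, ← hb₀, La0_mul, map_mul, map_mul, hb₀, hb, zero_mul]
    change f (map K₀.subtype (La0 l q)) = a
    rw [← hq₀, h3, map_add, map_add, h4, add_zero]

/-- **affine algebras with a degree function** -/
theorem alg3_mem {C : ∀ (G : Type) [Group G], Prop} (hC : ClosedE C) (hcat : CatC C)
    [Algebra.IsAlgebraic (ZMod p) K] {A : Type} [CommRing A] [Nontrivial A] [Algebra K A]
    [Algebra.FiniteType K A] {deg : A → WithBot ℤ} (h : IsDeg deg)
    (hfd : ∀ n : ℕ, ∃ V : Submodule K A, Module.Finite K V ∧ ∀ a, deg a ≤ n → a ∈ V) :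
    C (GL (Fin 3) A) := by
  refine comm_mem hC hcat h fun E n hE => ?_
  obtain ⟨V, hV, hVn⟩ := hfd n
  exact (sub_fin p V hE).subset fun a ha => ⟨ha.1, hVn a ha.2⟩

theorem deg_ren {R τ σ : Type} [CommRing R] {f : τ → σ} (hf : Function.Injective f)
    (q : MvPolynomial τ R) : q.totalDegree ≤ (rename f q).totalDegree := by
  refine Finset.sup_le fun b hb => ?_
  have h1 : b.mapDomain f ∈ (rename f q).support := by
    rw [mem_support_iff, coeff_rename_mapDomain f hf]
    exact mem_support_iff.1 hb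
  have h2 := le_totalDegree h1
  rwa [Finsupp.sum_mapDomain_index (fun _ => rfl) (fun _ _ _ => rfl)] at h2

/-- **polynomial rings in any number of variables** -/
theorem pol3_mem {C : ∀ (G : Type) [Group G], Prop} (hC : ClosedE C) (hcat : CatC C)
    [Algebra.IsAlgebraic (ZMod p) K] (σ : Type) : C (GL (Fin 3) (MvPolynomial σ K)) := by
  classical
  refine comm_mem hC hcat (td_isDeg (σ := σ) (K := K)) fun E n hE => ?_
  obtain ⟨s, hs⟩ : ∃ s : Finset σ, ∀ e ∈ E, (e.vars : Set σ) ⊆ Set.range (Subtype.val : s → σ) := by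
    refine ⟨hE.toFinset.biUnion vars, fun e he x hx => ?_⟩
    exact ⟨⟨x, Finset.mem_biUnion.2 ⟨e, hE.mem_toFinset.2 he, hx⟩⟩, rfl⟩
  have hlift : ∀ e ∈ E, ∃ q : MvPolynomial s K, rename Subtype.val q = e := fun e he =>
    exists_rename_eq_of_vars_subset_range e _ Subtype.val_injective (hs e he)
  choose! li hli using hlift
  have hfin := sub_fin p (restrictTotalDegree s K n) (hE.image li)
  refine (hfin.image (rename Subtype.val)).subset ?_
  rintro a ⟨ha, han⟩
  have h1 : a ∈ (Subring.closure (li '' E)).map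
      ((rename Subtype.val : MvPolynomial s K →ₐ[K] MvPolynomial σ K) :
        MvPolynomial s K →+* MvPolynomial σ K) := by
    refine (Subring.closure_le (t := (Subring.closure (li '' E)).map
      ((rename Subtype.val : MvPolynomial s K →ₐ[K] MvPolynomial σ K) :
        MvPolynomial s K →+* MvPolynomial σ K))).2 (fun e he => ?_) ha
    exact ⟨li e, Subring.subset_closure ⟨e, he, rfl⟩, hli e he⟩
  obtain ⟨q, hq, rfl⟩ := h1
  refine ⟨q, ⟨hq, ?_⟩, rfl⟩
  rw [mem_restrictTotalDegree]
  refine (deg_ren Subtype.val_injective q).trans ?_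
  by_cases h0 : rename (Subtype.val : s → σ) q = 0
  · rw [h0, totalDegree_zero]
    exact Nat.zero_le n
  · have h2 : td σ K (rename (Subtype.val : s → σ) q) ≤ n := han
    rw [td_ne h0] at h2
    exact_mod_cast h2

end fin

end Pool.Agent.Run7.h390.BD
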