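import Pool.Agent.Run7.h390.BD.Gl
import Pool.Agent.Run7.h390.TP.Loc
import Pool.Agent.Run7.h909.NC.Ore

/-!
# Rings with a degree function and finitely many elements of bounded degree

Owner helper390.
-/

set_option autoImplicit false

namespace Pool.Agent.Run7.h390.BD

open _root_.Run7.h909.TD _root_.Run7.h909.NC
open Pool.Agent.Y110.FJ (ClosedE)

variable {D : Type} [DivisionRing D] {deg : D → WithBot ℤ}

theorem le_neg_one {x : WithBot ℤ} (hx : x < 0) : x ≤ ((-1 : ℤ) : WithBot ℤ) := by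
  rcases x with _ | z
  · exact bot_le
  · have h1 : z < 0 := WithBot.coe_lt_coe.1 hx
    exact WithBot.coe_le_coe.2 (by omega)

theorem one_entry (h : IsDegN deg) (i j : Fin 3) : deg ((1 : Matrix (Fin 3) (Fin 3) D) i j) ≤ 0 := by
  rw [Matrix.one_apply]
  split_ifs
  · rw [h.one]
  · rw [h.zero]; exact bot_le

theorem pow_small (h : IsDegN deg) {G : Type} [Group G] (θ : G →* (Matrix (Fin 3) (Fin 3) D)ˣ) (g : G)
    (hg : ∀ i j, deg ((θ g : Matrix (Fin 3) (Fin 3) D) i j) < 0) (k : ℕ) :
    ∀ i j, deg ((θ (g ^ k) : Matrix (Fin 3) (Fin 3) D) i j) ≤ ((-(k : ℤ) : ℤ) : WithBot ℤ) := by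
  induction k with
  | zero =>
    intro i j
    rw [pow_zero, map_one, Units.val_one]
    refine (one_entry h i j).trans ?_
    simp
  | succ k ih =>
    intro i j
    rw [pow_succ, map_mul, Units.val_mul, Matrix.mul_apply]
    refine deg_sum h _ _ _ fun l _ => ?_
    refine (deg_mul_le h (ih i l) (le_neg_one (hg l j))).trans (WithBot.coe_le_coe.2 ?_)
    push_cast
    omega

/-- **groups with finitely many elements of bounded degree** -/
theorem fg_mem {C : ∀ (G : Type) [Group G], Prop} (hC : ClosedE C) (hcat : CatC C) (h : IsDegN deg)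
    {G : Type} [Group G] (θ : G →* (Matrix (Fin 3) (Fin 3) D)ˣ)
    (hfin : ∀ (E : Set G) (n : ℕ), E.Finite → {g : G | g ∈ Subgroup.closure E ∧
      ∀ i j, deg ((θ g : Matrix (Fin 3) (Fin 3) D) i j) ≤ n}.Finite) : C G := by
  refine Pool.Agent.N509.TX.of_fg hC fun H hH => ?_
  obtain ⟨S, hS⟩ := (Group.fg_iff_subgroup_fg H).1 hH
  have hf : ∀ n : ℕ, {g : H | ∀ i j, deg ((θ (g : G) : Matrix (Fin 3) (Fin 3) D) i j) ≤ n}.Finite := by
    intro n
    refine Set.Finite.of_finite_image (f := H.subtype) ((hfin (S : Set G) n S.finite_toSet).subset ?_)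
      H.subtype_injective.injOn
    rintro _ ⟨g, hg, rfl⟩
    exact ⟨by rw [hS]; exact g.2, hg⟩
  have hz : ∀ n : ℕ, (((n : ℕ) : ℤ) : WithBot ℤ) = (n : WithBot ℤ) := fun n => rfl
  refine gl3_core hC hcat h (θ.comp H.subtype) ?_ ?_ ?_
  · intro g
    by_contra hcon
    push Not at hcon
    have h1 := pow_small h θ (g : G) hcon
    obtain ⟨m, hm, hm1⟩ := TP.tor_of_fin (hf 0) (x := g) fun k i j => by
      have := h1 k i j
      refine le_trans ?_ (this.trans (WithBot.coe_le_coe.2 (by omega : -(k : ℤ) ≤ 0)))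
      rw [← H.coe_pow]
    have h2 := h1 m 0 0
    have h3 : (g : G) ^ m = 1 := by rw [← H.coe_pow, hm1, H.coe_one]
    rw [h3, map_one, Units.val_one, Matrix.one_apply_eq, h.one] at h2
    have h4 : (0 : ℤ) ≤ -(m : ℤ) := WithBot.coe_le_coe.1 h2
    omega
  · rintro g ⟨n, hn⟩
    obtain ⟨m, hm, hm1⟩ := TP.tor_of_fin (hf n) (x := g) fun k i j => hn k i j
    exact ⟨m, hm, by rw [hm1, map_one]⟩
  · intro n
    exact ⟨Multiplicative ℤ, inferInstance, 1, hC.base.int, (hf n).subset fun g hg => hg.1⟩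

/-- **unit groups of rings with a representation of degree three** -/
theorem ring_mem {C : ∀ (G : Type) [Group G], Prop} (hC : ClosedE C) (hcat : CatC C) (h : IsDegN deg)
    {L : Type} [Ring L] (ψ : L →+* Matrix (Fin 3) (Fin 3) D)
    (hfin : ∀ (E : Set L) (n : ℕ), E.Finite → {a : L | a ∈ Subring.closure E ∧
      ∀ i j, deg (ψ a i j) ≤ n}.Finite) : C Lˣ := by
  refine fg_mem hC hcat h (Units.map ψ.toMonoidHom) fun E n hE => ?_
  obtain ⟨E', hE'⟩ : ∃ E' : Set L, E' = (fun u : Lˣ => (u : L)) '' E ∪ (fun u : Lˣ => ((u⁻¹ : Lˣ) : L)) '' E :=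
    ⟨_, rfl⟩
  have hE'f : E'.Finite := by rw [hE']; exact (hE.image _).union (hE.image _)
  have hcl : ∀ g ∈ Subgroup.closure E, (g : L) ∈ Subring.closure E' ∧
      ((g⁻¹ : Lˣ) : L) ∈ Subring.closure E' := by
    intro g hg
    induction hg using Subgroup.closure_induction with
    | mem x hx =>
      rw [hE']
      exact ⟨Subring.subset_closure (Or.inl ⟨x, hx, rfl⟩), Subring.subset_closure (Or.inr ⟨x, hx, rfl⟩)⟩
    | one => exact ⟨Subring.one_mem _, by rw [inv_one]; exact Subring.one_mem _⟩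
    | mul x y _ _ hx hy =>
      refine ⟨?_, ?_⟩
      · rw [Units.val_mul]
        exact Subring.mul_mem _ hx.1 hy.1
      · rw [mul_inv_rev, Units.val_mul]
        exact Subring.mul_mem _ hy.2 hx.2
    | inv x _ hx => exact ⟨hx.2, by rw [inv_inv]; exact hx.1⟩
  refine Set.Finite.of_finite_image (f := fun u : Lˣ => (u : L)) ((hfin E' n hE'f).subset ?_)
    Units.val_injective.injOn
  rintro _ ⟨g, ⟨hg, hgn⟩, rfl⟩
  exact ⟨(hcl g hg).1, hgn⟩

theorem fin_m3 {A : Type} {F : Set A} (hF : F.Finite) :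
    {M : Matrix (Fin 3) (Fin 3) A | ∀ i j, M i j ∈ F}.Finite :=
  (Set.Finite.pi' fun _ : Fin 3 => Set.Finite.pi' fun _ : Fin 3 => hF).subset fun _ hM => hM

/-- **rings which embed in a division ring with a degree function** -/
theorem mat_mem {C : ∀ (G : Type) [Group G], Prop} (hC : ClosedE C) (hcat : CatC C) (h : IsDegN deg)
    {R : Type} [Ring R] (j : R →+* D)
    (hfin : ∀ (E : Set R) (n : ℕ), E.Finite → {a : R | a ∈ Subring.closure E ∧
      deg (j a) ≤ n}.Finite) : C (Matrix (Fin 3) (Fin 3) R)ˣ := by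
  refine ring_mem hC hcat h (j.mapMatrix : Matrix (Fin 3) (Fin 3) R →+* Matrix (Fin 3) (Fin 3) D) ?_
  · intro E n hE
    obtain ⟨E', hE'⟩ : ∃ E' : Set R, E' = ⋃ M ∈ E, ⋃ i : Fin 3, ⋃ k : Fin 3, ({M i k} : Set R) :=
      ⟨_, rfl⟩
    have hE'f : E'.Finite := by
      rw [hE']
      refine hE.biUnion fun M _ => ?_
      exact Set.finite_iUnion fun i => Set.finite_iUnion fun k => Set.toFinite _
    have hcl : ∀ M ∈ Subring.closure E, ∀ i k, M i k ∈ Subring.closure E' := by
      intro M hM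
      induction hM using Subring.closure_induction with
      | mem M hM =>
        intro i k
        refine Subring.subset_closure ?_
        rw [hE']
        simp only [Set.mem_iUnion]
        exact ⟨M, hM, i, k, rfl⟩
      | zero => exact fun i k => Subring.zero_mem _
      | one =>
        intro i k
        rw [Matrix.one_apply]
        split_ifs
        · exact Subring.one_mem _
        · exact Subring.zero_mem _
      | add M N _ _ h1 h2 => exact fun i k => Subring.add_mem _ (h1 i k) (h2 i k)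
      | neg M _ h1 => exact fun i k => Subring.neg_mem _ (h1 i k)
      | mul M N _ _ h1 h2 =>
        intro i k
        rw [Matrix.mul_apply]
        exact Subring.sum_mem _ fun l _ => Subring.mul_mem _ (h1 i l) (h2 l k)
    refine (fin_m3 (hfin E' n hE'f)).subset ?_
    rintro M ⟨hM, hMn⟩
    exact fun i k => ⟨hcl M hM i k, hMn i k⟩

/-- **left Ore domains** -/
theorem ore_mem {C : ∀ (G : Type) [Group G], Prop} (hC : ClosedE C) (hcat : CatC C)
    {R : Type} [Ring R] {deg : R → WithBot ℤ} (h : IsDegN deg) {j : R →+* D} (hj : LFrac j)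
    (hfin : ∀ (E : Set R) (n : ℕ), E.Finite → {a : R | a ∈ Subring.closure E ∧ deg a ≤ n}.Finite) :
    C (Matrix (Fin 3) (Fin 3) R)ˣ := by
  obtain ⟨d, hd, hdj⟩ := ext_deg h hj
  refine mat_mem hC hcat hd j fun E n hE => ?_
  have := hfin E n hE
  simp only [hdj]
  exact this

section comm

open _root_.Run7.h909.GT

theorem isDom {A : Type} [CommRing A] [Nontrivial A] {deg : A → WithBot ℤ} (h : IsDeg deg) :
    IsDomain A := by
  have : NoZeroDivisors A := ⟨fun {a b} hab => by
    have h1 := h.mul a b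
    rw [hab, (h.bot 0).2 rfl] at h1
    rcases WithBot.add_eq_bot.1 h1.symm with e | e
    · exact Or.inl ((h.bot _).1 e)
    · exact Or.inr ((h.bot _).1 e)⟩
  exact NoZeroDivisors.to_isDomain A

/-- the degree function on the field of fractions -/
theorem frac_deg {A : Type} [CommRing A] [IsDomain A] {deg : A → WithBot ℤ} (h : IsDeg deg) :
    ∃ d : FractionRing A → WithBot ℤ, IsDegN d ∧ ∀ a, d (algebraMap A (FractionRing A) a) = deg a := by
  obtain ⟨d, hd, hda⟩ := TP.loc_deg (A := FractionRing A) (nonZeroDivisors A) le_rfl h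
  exact ⟨d, ⟨hd.bot, hd.mul, hd.add⟩, hda⟩

/-- **commutative rings with a degree function** -/
theorem comm_mem {C : ∀ (G : Type) [Group G], Prop} (hC : ClosedE C) (hcat : CatC C)
    {A : Type} [CommRing A] [Nontrivial A] {deg : A → WithBot ℤ} (h : IsDeg deg)
    (hfin : ∀ (E : Set A) (n : ℕ), E.Finite → {a : A | a ∈ Subring.closure E ∧ deg a ≤ n}.Finite) :
    C (GL (Fin 3) A) := by
  have := isDom h
  obtain ⟨d, hd, hda⟩ := frac_deg h
  refine mat_mem hC hcat hd (algebraMap A (FractionRing A)) fun E n hE => ?_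
  have := hfin E n hE
  simp only [hda]
  exact this

end comm

end Pool.Agent.Run7.h390.BD
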