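import Pool.Agent.Run7.h390.BD.Sc

/-!
# Groups acting on lattices with an order automorphism of length three

Owner helper390.
-/

set_option autoImplicit false

namespace Pool.Agent.Run7.h390.BD

open _root_.Run7.h909.TD
open Pool.Agent.Y110.FJ (ClosedE)

variable {Λ : Type} [Lattice Λ] {t : Λ ≃o Λ}

section act

variable {G : Type} [Group G] [MulAction G Λ]

theorem smul_z (hcm : ∀ (g : G) (L : Λ), g • t L = t (g • L)) (g : G) (a : ℤ) (L : Λ) :
    g • (t ^ a : Λ ≃o Λ) L = (t ^ a : Λ ≃o Λ) (g • L) := by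
  have h1 : ∀ (n : ℕ) (L : Λ), g • (t ^ n : Λ ≃o Λ) L = (t ^ n : Λ ≃o Λ) (g • L) := by
    intro n
    induction n with
    | zero => intro L; rfl
    | succ n ih => intro L; rw [nsucc, nsucc, hcm, ih]
  obtain ⟨n, rfl | rfl⟩ := Int.eq_nat_or_neg a
  · rw [npow, npow, h1]
  · apply (t ^ (n : ℤ) : Λ ≃o Λ).injective
    have e1 : ∀ M : Λ, (t ^ (n : ℤ) : Λ ≃o Λ) ((t ^ (-(n : ℤ)) : Λ ≃o Λ) M) = M := by
      intro M
      rw [← zadd, add_neg_cancel, zzero]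
    rw [e1, npow, ← h1, ← npow, e1]

/-- the action on the vertices -/
def actVx (hcm : ∀ (g : G) (L : Λ), g • t L = t (g • L)) : MulAction G (Vx t) where
  smul g x := Quotient.map (sa := st t) (sb := st t) (fun L => g • L)
    (fun L M ⟨a, ha⟩ => ⟨a, by rw [← smul_z hcm, ha]⟩) x
  one_smul x := by
    obtain ⟨L, rfl⟩ := cl_surj x
    show cl t ((1 : G) • L) = cl t L
    rw [one_smul]
  mul_smul g k x := by
    obtain ⟨L, rfl⟩ := cl_surj x
    show cl t ((g * k) • L) = cl t (g • k • L)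
    rw [mul_smul]

end act

/-- **groups acting on a lattice with an order automorphism of length three** -/
theorem bl_mem {C : ∀ (G : Type) [Group G], Prop} (hC : ClosedE C) (hcat : CatC C) {G : Type}
    [Group G] [MulAction G Λ] [Nonempty Λ] (h : Bl t)
    (hm : ∀ (g : G) (L M : Λ), L ≤ M → g • L ≤ g • M)
    (hcm : ∀ (g : G) (L : Λ), g • t L = t (g • L))
    (hT : ∀ (g : G) (L M : Λ) (a : ℤ), g • L = (t ^ a : Λ ≃o Λ) L → Bt t L M →
      ∃ n : ℕ, 0 < n ∧ ∃ b : ℤ, g ^ n • M = (t ^ b : Λ ≃o Λ) M)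
    (hP : ∀ L : Λ, ∃ (P : Type) (_ : Group P) (f : G →* P), C P ∧
      {g : G | (∃ a : ℤ, g • L = (t ^ a : Λ ≃o Λ) L) ∧ f g = 1}.Finite) : C G := by
  let _ : MulAction G (Vx t) := actVx hcm
  have hs : ∀ (g : G) (L : Λ), g • cl t L = cl t (g • L) := fun g L => rfl
  have hlt : ∀ (g : G) (L M : Λ), L < M → g • L < g • M := by
    intro g L M hLM
    refine lt_of_le_of_ne (hm g L M hLM.le) fun e => ?_
    exact hLM.ne (MulAction.injective g e)
  have hadj : ∀ (g : G) (x y : Vx t), (Tg h).Adj x y → (Tg h).Adj (g • x) (g • y) := by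
    rintro g _ _ ⟨L, M, rfl, rfl, e⟩
    rw [hs, hs]
    refine adj_of (h := h) ⟨?_, hlt g M L e.2⟩
    rw [← hcm]
    exact hlt g _ _ e.1
  refine main hC hcat (T := Tg h) (F := Fl (Tg h)) (ℓ := fun _ _ => 1)
    (w := fun _ => Real.pi / 3) (cx_bl h) (sc_bl h) (Fl_Ac G hadj) ⟨fun _ _ _ _ => rfl, fun _ _ _ => rfl⟩
    ?_ ?_
  · intro x y hxy g hg
    obtain ⟨L, rfl⟩ := cl_surj x
    obtain ⟨M, rfl, hLM⟩ := nrm hxy
    rw [hs] at hg
    obtain ⟨a, ha⟩ := cl_eq.1 hg.symm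
    obtain ⟨n, hn, b, hb⟩ := hT g L M a ha.symm hLM
    exact ⟨n, hn, by rw [hs, hb, cl_z]⟩
  · intro x
    obtain ⟨L, rfl⟩ := cl_surj x
    obtain ⟨P, _, f, hCP, hf⟩ := hP L
    refine ⟨P, _, f, hCP, hf.subset ?_⟩
    rintro g ⟨hg, hfg⟩
    rw [hs] at hg
    obtain ⟨a, ha⟩ := cl_eq.1 hg.symm
    exact ⟨⟨a, ha.symm⟩, hfg⟩

end Pool.Agent.Run7.h390.BD
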