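import Pool.Agent.Run7.h390.BD.Ord

/-!
# The complex of triangles

Owner helper390.
-/

set_option autoImplicit false

namespace Pool.Agent.Run7.h390.BD

open _root_.Run7.h909.TD

section tri

variable {V : Type} (T : SimpleGraph V)

/-- the faces: all triangles of the graph -/
def Fl : Set (ℤ → V) := {φ | Per φ 3 ∧ ∀ i, T.Adj (φ i) (φ (i + 1))}

/-- the triangle with three given corners -/
def tr (x y z : V) : ℤ → V := fun i => if i % 3 = 0 then x else if i % 3 = 1 then y else z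

variable {T}

theorem tr_per {x y z : V} (hxy : x ≠ y) (hyz : y ≠ z) (hxz : x ≠ z) : Per (tr x y z) 3 := by
  intro i j
  have hi : i % 3 = 0 ∨ i % 3 = 1 ∨ i % 3 = 2 := by omega
  have hj : j % 3 = 0 ∨ j % 3 = 1 ∨ j % 3 = 2 := by omega
  unfold tr
  rcases hi with hi | hi | hi <;> rcases hj with hj | hj | hj <;> simp only [hi, hj]
  · simp; omega
  · simp [hxy]; omega
  · simp [hxz]; omega
  · simp [hxy.symm]; omega
  · simp; omega
  · simp [hyz]; omega
  · simp [hxz.symm]; omega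
  · simp [hyz.symm]; omega
  · simp; omega

theorem tr_mem {x y z : V} (hxy : T.Adj x y) (hyz : T.Adj y z) (hxz : T.Adj x z) :
    tr x y z ∈ Fl T := by
  refine ⟨tr_per hxy.ne hyz.ne hxz.ne, fun i => ?_⟩
  have hi : i % 3 = 0 ∨ i % 3 = 1 ∨ i % 3 = 2 := by omega
  unfold tr
  rcases hi with hi | hi | hi
  · have h1 : (i + 1) % 3 = 1 := by omega
    simpa [hi, h1] using hxy
  · have h1 : (i + 1) % 3 = 2 := by omega
    simpa [hi, h1] using hyz
  · have h1 : (i + 1) % 3 = 0 := by omega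
    simpa [hi, h1] using hxz.symm

theorem Fl_Ac (G : Type) [Group G] [MulAction G V]
    (hadj : ∀ (g : G) (x y : V), T.Adj x y → T.Adj (g • x) (g • y)) : Ac G T (Fl T) where
  adj := hadj
  face := by
    rintro g φ ⟨h1, h2⟩
    refine ⟨?_, fun i => hadj g _ _ (h2 i)⟩
    intro i j
    show g • φ i = g • φ j ↔ _
    rw [← h1 i j]
    exact ⟨fun e => MulAction.injective g e, fun e => congrArg _ e⟩

theorem per3 {φ ψ : ℤ → V} (h1 : Per φ 3) (h2 : Per ψ 3) (e0 : φ 0 = ψ 0) (e1 : φ 1 = ψ 1)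
    (e2 : φ (-1) = ψ (-1)) : φ = ψ := by
  funext i
  have hi : i % 3 = 0 ∨ i % 3 = 1 ∨ i % 3 = 2 := by omega
  rcases hi with hi | hi | hi
  · rw [(h1 i 0).2 (by omega), (h2 i 0).2 (by omega), e0]
  · rw [(h1 i 1).2 (by omega), (h2 i 1).2 (by omega), e1]
  · rw [(h1 i (-1)).2 (by omega), (h2 i (-1)).2 (by omega), e2]

theorem coc_tri {L : Type} [Group L] {c : V → V → L} (hc : Coc T (Fl T) c) {x y z : V}
    (hxy : T.Adj x y) (hyz : T.Adj y z) (hxz : T.Adj x z) : c x y * c y z = c x z := by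
  have h1 := hc.face _ (tr_mem hxy hyz hxz) 3 (tr_per hxy.ne hyz.ne hxz.ne)
  rw [wrap_succ, wrap_succ, wrap_succ, wrap_zero, one_mul] at h1
  have e0 : tr x y z ((0 : ℕ) : ℤ) = x := by simp [tr]
  have e1 : tr x y z ((0 : ℕ) + 1 : ℤ) = y := by simp [tr]
  have e1' : tr x y z ((1 : ℕ) : ℤ) = y := by simp [tr]
  have e2 : tr x y z ((1 : ℕ) + 1 : ℤ) = z := by simp [tr]
  have e2' : tr x y z ((2 : ℕ) : ℤ) = z := by simp [tr]
  have e3 : tr x y z ((2 : ℕ) + 1 : ℤ) = x := by simp [tr]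
  rw [e0, e1, e1', e2, e2', e3] at h1
  have h2 := hc.inv x z hxz
  rw [mul_eq_one_iff_eq_inv] at h1 h2
  rw [h1, h2]

end tri

/-- the direction of the sides of an equilateral triangle -/
theorem poly3 {V : Type} (φ : ℤ → V) : Polygon (fun _ _ => 1) (fun _ => Real.pi / 3) φ 3 := by
  refine ⟨fun k => k * (2 * Real.pi / 3), fun k => ?_, ?_, ?_⟩
  · push_cast
    ring
  · push_cast
    ring
  · simp only [Complex.ofReal_one, one_mul]
    set ζ : ℂ := Complex.exp (2 * Real.pi * Complex.I / 3) with hζ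
    have h1 : ∀ k : ℕ, Complex.exp ((((k : ℤ) : ℝ) * (2 * Real.pi / 3) : ℝ) * Complex.I) = ζ ^ k := by
      intro k
      rw [hζ, ← Complex.exp_nat_mul]
      congr 1
      push_cast
      ring
    have h2 : ∑ k ∈ Finset.range 3, Complex.exp ((((k : ℤ) : ℝ) * (2 * Real.pi / 3) : ℝ) * Complex.I) =
        ∑ k ∈ Finset.range 3, ζ ^ k := Finset.sum_congr rfl fun k _ => h1 k
    refine h2.trans ?_
    have h3 : IsPrimitiveRoot ζ 3 := Complex.isPrimitiveRoot_exp 3 (by norm_num)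
    exact h3.geom_sum_eq_zero (by norm_num)

variable {Λ : Type} [Lattice Λ] {t : Λ ≃o Λ}

theorem link_ok (h : Bl t) (b : Vx t) (k : ℕ) (hk : 3 ≤ k) (a : ℤ → Vx t) (ha : Per a k)
    (ψ : ℤ → ℤ → Vx t) (hψ : ∀ i : ℤ, ψ i ∈ Fl (Tg h) ∧ ψ i 0 = b ∧ ψ i (-1) = a i ∧
      ψ i 1 = a (i + 1)) : 6 ≤ k := by
  obtain ⟨L, rfl⟩ := cl_surj b
  have h1 : ∀ i, ∃ M, cl t M = a i ∧ Bt t L M := by
    intro i
    obtain ⟨⟨_, e⟩, e0, e1, _⟩ := hψ i
    have h2 := (e (-1)).symm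
    rw [e1, show (-1 : ℤ) + 1 = 0 by norm_num, e0] at h2
    exact nrm h2
  choose M hM1 hM2 using h1
  refine no_short h M hM2 (fun i => ?_) k hk fun i j => ?_
  · refine cmp (h := h) (hM2 i) (hM2 (i + 1)) ?_
    obtain ⟨⟨e', e⟩, e0, e1, e2⟩ := hψ i
    rw [hM1, hM1, ← e1, ← e2]
    have h3 := (e 1).symm
    rw [show (1 : ℤ) + 1 = -1 + (3 : ℕ) by norm_num, e'.eq] at h3
    exact h3
  · rw [← ha i j, ← hM1 i, ← hM1 j]
    exact ⟨fun e => congrArg _ e, fun e => uni h (hM2 i) (hM2 j) e⟩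

/-- nonpositive curvature -/
theorem cx_bl (h : Bl t) : Cx (Tg h) (Fl (Tg h)) (fun _ _ => 1) (fun _ => Real.pi / 3) where
  adj := fun φ hφ i => hφ.2 i
  per := fun φ hφ => ⟨3, le_rfl, hφ.1⟩
  shift := by
    rintro φ ⟨h1, h2⟩ k
    refine ⟨h1.shift k, fun i => ?_⟩
    have := h2 (i + k)
    show (Tg h).Adj (φ (i + k)) (φ (i + 1 + k))
    rwa [show i + 1 + k = i + k + 1 by ring]
  refl := by
    rintro φ ⟨h1, h2⟩
    refine ⟨h1.refl, fun i => ?_⟩
    have := (h2 (-(i + 1))).symm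
    show (Tg h).Adj (φ (-i)) (φ (-(i + 1)))
    rwa [show -(i + 1) + 1 = -i by ring] at this
  len := fun _ _ _ => ⟨one_pos, rfl⟩
  ang := fun _ _ => ⟨by positivity, by linarith [Real.pi_pos], rfl⟩
  poly := by
    rintro φ ⟨h1, _⟩ n hn
    rw [hn.unique h1]
    exact poly3 φ
  corner := fun φ hφ ψ hψ e0 e1 e2 => per3 hφ.1 hψ.1 e0 e1 e2
  link := by
    intro b k hk a ha ψ hψ
    have h6 := link_ok h b k hk a ha ψ hψ
    rw [Finset.sum_const, Finset.card_range, nsmul_eq_mul]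
    have h7 : (6 : ℝ) ≤ k := by exact_mod_cast h6
    nlinarith [Real.pi_pos]

end Pool.Agent.Run7.h390.BD
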