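import Pool.Agent.Run7.h390.BD.La

/-!
# Groups of invertible `3 × 3` matrices over a division ring with a degree function

Owner helper390.
-/

set_option autoImplicit false

namespace Pool.Agent.Run7.h390.BD

open _root_.Run7.h909.TD _root_.Run7.h909.NC
open Pool.Agent.Y110.FJ (ClosedE)

/-- homomorphisms with finite kernel -/
theorem fin_ker {C : ∀ (G : Type) [Group G], Prop} (hC : ClosedE C) (hcat : CatC C) {G P : Type}
    [Group G] [Group P] (f : G →* P) (hP : C P) (hf : {g : G | f g = 1}.Finite) : C G := by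
  let _ : MulAction G Unit := { smul := fun _ x => x, one_smul := fun _ => rfl, mul_smul := fun _ _ _ => rfl }
  have hno : ∀ x y : Unit, ¬ (⊥ : SimpleGraph Unit).Adj x y := fun x y e => e
  refine main hC hcat (T := (⊥ : SimpleGraph Unit)) (F := (∅ : Set (ℤ → Unit))) (ℓ := fun _ _ => 1)
    (w := fun _ => 1) ?_ ?_ ?_ ?_ ?_ ?_
  · exact
      { adj := fun φ hφ => absurd hφ (Set.notMem_empty _)
        per := fun φ hφ => absurd hφ (Set.notMem_empty _)
        shift := fun φ hφ => absurd hφ (Set.notMem_empty _)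
        refl := fun φ hφ => absurd hφ (Set.notMem_empty _)
        len := fun _ _ _ => ⟨one_pos, rfl⟩
        ang := fun φ hφ => absurd hφ (Set.notMem_empty _)
        poly := fun φ hφ => absurd hφ (Set.notMem_empty _)
        corner := fun φ hφ => absurd hφ (Set.notMem_empty _)
        link := fun b k hk a ha ψ hψ => absurd (hψ 0).1 (Set.notMem_empty _) }
  · refine ⟨?_, fun L _ c _ => ⟨fun _ => 1, fun x y e => absurd e (hno x y)⟩⟩
    exact SimpleGraph.Connected.mk fun x y => by cases x; cases y; exact SimpleGraph.Reachable.refl _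
  · exact ⟨fun g x y e => absurd e (hno x y), fun g φ hφ => absurd hφ (Set.notMem_empty _)⟩
  · exact ⟨fun g x y e => absurd e (hno x y), fun _ _ _ => rfl⟩
  · intro x y e
    exact absurd e (hno x y)
  · exact fun x => ⟨P, inferInstance, f, hP, hf.subset fun g hg => hg.2⟩

variable {D : Type} [DivisionRing D] {deg : D → WithBot ℤ}

omit [DivisionRing D] in
theorem deg_nat (deg : D → WithBot ℤ) (x : D) : ∃ n : ℕ, deg x ≤ ((n : ℤ) : WithBot ℤ) := by
  rcases h : deg x with _ | z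
  · exact ⟨0, bot_le⟩
  · exact ⟨z.toNat, WithBot.coe_le_coe.2 (Int.self_le_toNat z)⟩

theorem vm_bd (h : IsDegN deg) (B : Matrix (Fin 3) (Fin 3) D) : ∃ m : ℕ, ∀ (x : Fin 3 → D) (n : ℤ),
    (∀ i, deg (x i) ≤ (n : WithBot ℤ)) → ∀ j, deg (Matrix.vecMul x B j) ≤ ((n + m : ℤ) : WithBot ℤ) := by
  choose f hf using fun i j => deg_nat deg (B i j)
  refine ⟨∑ i, ∑ j, f i j, fun x n hx j => ?_⟩
  have e : Matrix.vecMul x B j = ∑ i, x i * B i j := rfl
  rw [e]
  refine deg_sum h _ _ _ fun i _ => ?_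
  refine (deg_mul_le h (hx i) (hf i j)).trans (WithBot.coe_le_coe.2 ?_)
  have h1 : f i j ≤ ∑ i, ∑ j, f i j :=
    (Finset.single_le_sum (f := fun j => f i j) (fun _ _ => Nat.zero_le _) (Finset.mem_univ j)).trans
      (Finset.single_le_sum (f := fun i => ∑ j, f i j) (fun _ _ => Nat.zero_le _) (Finset.mem_univ i))
  have h2 : (f i j : ℤ) ≤ ((∑ i, ∑ j, f i j : ℕ) : ℤ) := by exact_mod_cast h1
  linarith

/-- multiplication of row vectors by a matrix -/
def vm (B : Matrix (Fin 3) (Fin 3) D) : (Fin 3 → D) →+ (Fin 3 → D) :=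
  AddMonoidHom.mk' (fun x => Matrix.vecMul x B) fun x y => Matrix.add_vecMul B x y

variable {h : IsDegN deg}

/-- the image of a lattice under an invertible matrix (acting by the inverse) -/
def gla (B : (Matrix (Fin 3) (Fin 3) D)ˣ) (L : La h) : La h where
  S := L.S.comap (vm (B : Matrix (Fin 3) (Fin 3) D))
  sm := by
    intro a x ha hx
    show Matrix.vecMul (a • x) _ ∈ L.S
    rw [Matrix.smul_vecMul]
    exact L.sm _ _ ha hx
  bd := by
    obtain ⟨n, hn⟩ := L.bd
    obtain ⟨m, hm⟩ := vm_bd h ((B⁻¹ : (Matrix (Fin 3) (Fin 3) D)ˣ) : Matrix (Fin 3) (Fin 3) D)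
    refine ⟨n + m, fun x hx i => ?_⟩
    have h1 := hm (Matrix.vecMul x (B : Matrix (Fin 3) (Fin 3) D)) n (hn _ hx) i
    rw [Matrix.vecMul_vecMul, Units.mul_inv, Matrix.vecMul_one] at h1
    exact_mod_cast h1
  op := by
    obtain ⟨n, hn⟩ := L.op
    obtain ⟨m, hm⟩ := vm_bd h (B : Matrix (Fin 3) (Fin 3) D)
    refine ⟨n + m, fun x hx => hn _ fun i => ?_⟩
    refine (hm x _ hx i).trans (WithBot.coe_le_coe.2 ?_)
    push_cast
    omega

theorem mem_gla (B : (Matrix (Fin 3) (Fin 3) D)ˣ) (L : La h) (x : Fin 3 → D) :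
    x ∈ (gla B L).S ↔ Matrix.vecMul x (B : Matrix (Fin 3) (Fin 3) D) ∈ L.S := Iff.rfl

/-- the action of a group of matrices on the lattices -/
@[reducible]
def actLa {G : Type} [Group G] (h : IsDegN deg) (θ : G →* (Matrix (Fin 3) (Fin 3) D)ˣ) :
    MulAction G (La h) where
  smul g L := gla (θ g) L
  one_smul L := by
    apply La.ext'
    ext x
    show Matrix.vecMul x ((θ 1 : (Matrix (Fin 3) (Fin 3) D)ˣ) : Matrix (Fin 3) (Fin 3) D) ∈ L.S ↔ _
    rw [map_one, Units.val_one, Matrix.vecMul_one]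
  mul_smul g k L := by
    apply La.ext'
    ext x
    show Matrix.vecMul x ((θ (g * k) : (Matrix (Fin 3) (Fin 3) D)ˣ) : Matrix (Fin 3) (Fin 3) D) ∈ L.S ↔
      Matrix.vecMul (Matrix.vecMul x (θ g : Matrix (Fin 3) (Fin 3) D))
        (θ k : Matrix (Fin 3) (Fin 3) D) ∈ L.S
    rw [map_mul, Units.val_mul, Matrix.vecMul_vecMul]

theorem exists_unif (h : IsDegN deg) (hx : ∃ y, y ≠ 0 ∧ deg y < 0) : ∃ (u : D) (d : ℕ), Unif deg u d := by
  obtain ⟨y, hy, hy0⟩ := hx
  obtain ⟨z, hz⟩ := deg_int h hy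
  have hP : ∃ d : ℕ, 0 < d ∧ ∃ u, deg u = ((-(d : ℤ) : ℤ) : WithBot ℤ) := by
    rw [hz] at hy0
    have h1 : z < 0 := by exact_mod_cast hy0
    refine ⟨z.natAbs, by omega, y, ?_⟩
    rw [hz]
    congr 1
    omega
  classical
  obtain ⟨h1, u, hu⟩ := Nat.find_spec hP
  refine ⟨u, Nat.find hP, h1, hu, fun v hv => ?_⟩
  by_cases hv0 : v = 0
  · rw [hv0, h.zero]; exact bot_le
  · obtain ⟨w, hw⟩ := deg_int h hv0
    rw [hw] at hv
    have h2 : w < 0 := by exact_mod_cast hv
    have h3 : Nat.find hP ≤ w.natAbs := Nat.find_min' hP ⟨by omega, v, by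
      rw [hw]
      congr 1
      omega⟩
    rw [hw, hu]
    exact WithBot.coe_le_coe.2 (by omega)

theorem mem_zpow {u : D} (hu : u ≠ 0) (z : ℤ) (L : La h) (x : Fin 3 → D) :
    x ∈ ((scI h u hu ^ z : La h ≃o La h) L).S ↔ u ^ (-z) • x ∈ L.S := by
  obtain ⟨n, rfl | rfl⟩ := Int.eq_nat_or_neg z
  · rw [npow, mem_pow, zpow_neg, zpow_natCast, inv_pow]
  · rw [neg_neg, zpow_natCast]
    have h1 := mem_pow hu n ((scI h u hu ^ (-(n : ℤ)) : La h ≃o La h) L) (u ^ n • x)
    rw [← npow, ← zadd, add_neg_cancel, zzero, smul_smul, inv_pow,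
      inv_mul_cancel₀ (pow_ne_zero _ hu), one_smul] at h1
    exact h1.symm

theorem deg_zpow (h : IsDegN deg) {u : D} {z : ℤ} (hu : deg u = z) (a : ℤ) :
    deg (u ^ a) = ((a * z : ℤ) : WithBot ℤ) := by
  obtain ⟨n, rfl | rfl⟩ := Int.eq_nat_or_neg a
  · rw [zpow_natCast, deg_pow h hu]
  · rw [zpow_neg, zpow_natCast, deg_inv h (deg_pow h hu n)]
    congr 1
    ring

theorem ev_vm (B : Matrix (Fin 3) (Fin 3) D) (i j : Fin 3) (y : D) :
    Matrix.vecMul (ev i y) B j = y * B i j := by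
  have e : Matrix.vecMul (ev i y) B j = ∑ k, ev i y k * B k j := rfl
  rw [e, Finset.sum_eq_single i]
  · unfold ev
    rw [Function.update_self]
  · intro k _ hk
    unfold ev
    rw [Function.update_of_ne hk]
    show 0 * B k j = 0
    rw [zero_mul]
  · intro hi
    exact absurd (Finset.mem_univ i) hi

theorem smul_ev (a y : D) (i : Fin 3) : a • ev i y = ev i (a * y) := by
  funext j
  unfold ev
  by_cases e : j = i
  · subst e
    show a * Function.update (0 : Fin 3 → D) j y j = _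
    rw [Function.update_self, Function.update_self]
  · show a * Function.update (0 : Fin 3 → D) i y j = _
    rw [Function.update_of_ne e, Function.update_of_ne e]
    show a * 0 = 0
    rw [mul_zero]

/-- **groups of invertible matrices of rank three over a division ring with a degree function** -/
theorem gl3_core {C : ∀ (G : Type) [Group G], Prop} (hC : ClosedE C) (hcat : CatC C) (h : IsDegN deg)
    {G : Type} [Group G] (θ : G →* (Matrix (Fin 3) (Fin 3) D)ˣ)
    (hU : ∀ g : G, ∃ i j, 0 ≤ deg ((θ g : Matrix (Fin 3) (Fin 3) D) i j))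
    (hT : ∀ g : G, (∃ n : ℕ, ∀ (k : ℕ) (i j : Fin 3),
      deg ((θ (g ^ k) : Matrix (Fin 3) (Fin 3) D) i j) ≤ ((n : ℤ) : WithBot ℤ)) →
      ∃ m : ℕ, 0 < m ∧ θ (g ^ m) = 1)
    (hP : ∀ n : ℕ, ∃ (P : Type) (_ : Group P) (f : G →* P), C P ∧
      {g : G | (∀ i j, deg ((θ g : Matrix (Fin 3) (Fin 3) D) i j) ≤ ((n : ℤ) : WithBot ℤ)) ∧
        f g = 1}.Finite) : C G := by
  by_cases hx : ∃ y, y ≠ 0 ∧ deg y < 0
  · obtain ⟨u, d, hu⟩ := exists_unif h hx
    have hu0 := hu.ne h
    let _ : MulAction G (La h) := actLa h θ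
    have hmem : ∀ (g : G) (L : La h) (x : Fin 3 → D), x ∈ (g • L).S ↔
        Matrix.vecMul x (θ g : Matrix (Fin 3) (Fin 3) D) ∈ L.S := fun g L x => Iff.rfl
    have hcm : ∀ (g : G) (L : La h), g • scI h u hu0 L = scI h u hu0 (g • L) := by
      intro g L
      apply La.ext'
      ext x
      show u⁻¹ • Matrix.vecMul x (θ g : Matrix (Fin 3) (Fin 3) D) ∈ L.S ↔
        Matrix.vecMul (u⁻¹ • x) (θ g : Matrix (Fin 3) (Fin 3) D) ∈ L.S
      rw [Matrix.smul_vecMul]
    -- bounds for the powers of the elements of a stabilizer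
    have hbd : ∀ L : La h, ∃ n : ℕ, ∀ (g : G) (a : ℤ), g • L = (scI h u hu0 ^ a : La h ≃o La h) L →
        ∀ (k : ℕ) (i j : Fin 3), deg ((θ (g ^ k) : Matrix (Fin 3) (Fin 3) D) i j) ≤
          ((n + d * (k * a) : ℤ) : WithBot ℤ) := by
      intro L
      obtain ⟨m, hm⟩ := L.bd
      obtain ⟨l, hl⟩ := L.op
      refine ⟨m + d * l, fun g a hga k i j => ?_⟩
      have hk : g ^ k • L = (scI h u hu0 ^ (k * a) : La h ≃o La h) L := by
        induction k with
        | zero => rw [pow_zero, one_smul]; simp [zzero]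
        | succ k ih =>
          rw [pow_succ', mul_smul, ih, smul_z hcm, hga, ← zadd]
          congr 2
          push_cast
          ring
      have h1 : ev i (u ^ ((l : ℤ) + k * a)) ∈ (g ^ k • L).S := by
        rw [hk, mem_zpow, smul_ev, ← zpow_add₀ hu0]
        refine hl _ fun j => ev_deg h i _ j ?_
        rw [deg_zpow h hu.val]
        refine WithBot.coe_le_coe.2 ?_
        have h2 : -(↑k * a) + (↑l + ↑k * a) = (l : ℤ) := by ring
        rw [h2]
        have := hu.pos
        have h3 : (1 : ℤ) ≤ d := by exact_mod_cast this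
        nlinarith
      rw [hmem] at h1
      have h2 := hm _ h1 j
      rw [ev_vm] at h2
      have h3 : ((θ (g ^ k) : Matrix (Fin 3) (Fin 3) D) i j) = u ^ (-((l : ℤ) + k * a)) *
          (u ^ ((l : ℤ) + k * a) * (θ (g ^ k) : Matrix (Fin 3) (Fin 3) D) i j) := by
        rw [← mul_assoc, ← zpow_add₀ hu0, neg_add_cancel, zpow_zero, one_mul]
      rw [h3]
      refine (deg_mul_le h (deg_zpow h hu.val _).le h2).trans (WithBot.coe_le_coe.2 ?_)
      push_cast
      nlinarith
    have hneg : ∀ (g : G) (L : La h) (a : ℤ), g • L = (scI h u hu0 ^ a : La h ≃o La h) L → 0 ≤ a := by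
      intro g L a hga
      by_contra ha
      obtain ⟨n, hn⟩ := hbd L
      obtain ⟨i, j, hij⟩ := hU (g ^ (n + 1))
      have h1 := hij.trans (hn g a hga (n + 1) i j)
      have h2 : (0 : ℤ) ≤ n + d * (((n + 1 : ℕ) : ℤ) * a) := WithBot.coe_le_coe.1 h1
      have h3 : (1 : ℤ) ≤ d := by exact_mod_cast hu.pos
      have h4 : a ≤ -1 := by omega
      have h5 : ((n + 1 : ℕ) : ℤ) * a ≤ -((n : ℤ) + 1) := by
        push_cast
        nlinarith
      nlinarith
    have hzero : ∀ (g : G) (L : La h) (a : ℤ), g • L = (scI h u hu0 ^ a : La h ≃o La h) L → a = 0 := by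
      intro g L a hga
      have h1 := hneg g L a hga
      have h2 : g⁻¹ • L = (scI h u hu0 ^ (-a) : La h ≃o La h) L := by
        have h3 : L = g⁻¹ • (scI h u hu0 ^ a : La h ≃o La h) L := by rw [← hga, inv_smul_smul]
        rw [smul_z hcm] at h3
        conv_rhs => rw [h3]
        rw [zneg]
      have h3 := hneg _ _ _ h2
      omega
    refine bl_mem hC hcat (bl_la h hu) (fun g L M e x hx => e hx) hcm ?_ ?_
    · intro g L M a hga _
      obtain ⟨n, hn⟩ := hbd L
      have ha := hzero g L a hga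
      obtain ⟨m, hm, hm1⟩ := hT g ⟨n, fun k i j => by
        have := hn g a hga k i j
        rwa [ha, mul_zero, mul_zero, add_zero] at this⟩
      refine ⟨m, hm, 0, ?_⟩
      rw [zzero]
      apply La.ext'
      ext x
      rw [hmem, hm1, Units.val_one, Matrix.vecMul_one]
    · intro L
      obtain ⟨n, hn⟩ := hbd L
      obtain ⟨P, _, f, hCP, hf⟩ := hP n
      refine ⟨P, _, f, hCP, hf.subset ?_⟩
      rintro g ⟨⟨a, hga⟩, hfg⟩
      refine ⟨fun i j => ?_, hfg⟩
      have h1 := hn g a hga 1 i j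
      rwa [hzero g L a hga, mul_zero, mul_zero, add_zero, pow_one] at h1
  · push Not at hx
    obtain ⟨P, _, f, hCP, hf⟩ := hP 0
    refine fin_ker hC hcat f hCP (hf.subset fun g hg => ⟨fun i j => ?_, hg⟩)
    by_cases hy : ((θ g : Matrix (Fin 3) (Fin 3) D) i j) = 0
    · rw [hy, h.zero]; exact bot_le
    · obtain ⟨z, hz⟩ := deg_int h hy
      have h1 := hx _ (inv_ne_zero hy)
      rw [deg_inv h hz] at h1
      have h2 : (0 : ℤ) ≤ -z := WithBot.coe_le_coe.1 h1
      rw [hz]
      exact WithBot.coe_le_coe.2 (by push_cast; omega)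

end Pool.Agent.Run7.h390.BD
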