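import Pool.Agent.Run7.h390.BD.Act
import Pool.Agent.Run7.h909.NC.Dv

/-!
# Lattices in a space of dimension three over a division ring with a degree function

Owner helper390.
-/

set_option autoImplicit false

namespace Pool.Agent.Run7.h390.BD

open _root_.Run7.h909.TD _root_.Run7.h909.NC

variable {D : Type} [DivisionRing D] {deg : D → WithBot ℤ}

theorem deg_sum (h : IsDegN deg) {ι : Type} (s : Finset ι) (f : ι → D) (b : WithBot ℤ)
    (hf : ∀ i ∈ s, deg (f i) ≤ b) : deg (∑ i ∈ s, f i) ≤ b := by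
  classical
  induction s using Finset.induction_on with
  | empty => rw [Finset.sum_empty, h.zero]; exact bot_le
  | insert i s hi ih =>
    rw [Finset.sum_insert hi]
    exact (h.add _ _).trans (max_le (hf i (Finset.mem_insert_self i s))
      (ih fun j hj => hf j (Finset.mem_insert_of_mem hj)))

theorem deg_int (h : IsDegN deg) {x : D} (hx : x ≠ 0) : ∃ n : ℤ, deg x = (n : WithBot ℤ) := by
  obtain ⟨n, hn⟩ := WithBot.ne_bot_iff_exists.1 (fun e => hx ((h.bot _).1 e))
  exact ⟨n, hn.symm⟩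

theorem deg_inv (h : IsDegN deg) {x : D} {n : ℤ} (hx : deg x = n) : deg x⁻¹ = ((-n : ℤ) : WithBot ℤ) := by
  have hx0 : x ≠ 0 := by
    rintro rfl
    rw [h.zero] at hx
    exact absurd hx WithBot.bot_ne_coe
  have h1 := inv_deg h hx0
  obtain ⟨m, hm⟩ := deg_int h (inv_ne_zero hx0)
  rw [hx, hm, ← WithBot.coe_add, ← WithBot.coe_zero, WithBot.coe_inj] at h1
  rw [hm, WithBot.coe_inj]
  omega

/-- an upper bound for the degree of a product -/
theorem deg_mul_le (h : IsDegN deg) {x y : D} {a b : ℤ} (hx : deg x ≤ a) (hy : deg y ≤ b) :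
    deg (x * y) ≤ ((a + b : ℤ) : WithBot ℤ) := by
  rw [h.mul, WithBot.coe_add]
  exact add_le_add hx hy

/-- the lattices in `D ^ 3` -/
structure La (h : IsDegN deg) where
  S : AddSubgroup (Fin 3 → D)
  sm : ∀ (a : D) (x : Fin 3 → D), deg a ≤ 0 → x ∈ S → a • x ∈ S
  bd : ∃ n : ℕ, ∀ x ∈ S, ∀ i, deg (x i) ≤ ((n : ℤ) : WithBot ℤ)
  op : ∃ n : ℕ, ∀ x : Fin 3 → D, (∀ i, deg (x i) ≤ ((-(n : ℤ) : ℤ) : WithBot ℤ)) → x ∈ S

variable (h : IsDegN deg)

theorem La.ext' {h : IsDegN deg} {L M : La h} (e : L.S = M.S) : L = M := by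
  cases L; cases M; cases e; rfl

theorem La.S_inj : Function.Injective (La.S : La h → AddSubgroup (Fin 3 → D)) := fun _ _ e => La.ext' e

instance : PartialOrder (La h) := PartialOrder.lift La.S (La.S_inj h)

theorem La.le_iff {L M : La h} : L ≤ M ↔ L.S ≤ M.S := Iff.rfl

instance : Lattice (La h) where
  sup L M :=
    { S := L.S ⊔ M.S
      sm := by
        intro a x ha hx
        obtain ⟨y, hy, z, hz, rfl⟩ := AddSubgroup.mem_sup.1 hx
        rw [smul_add]
        exact AddSubgroup.mem_sup.2 ⟨_, L.sm a y ha hy, _, M.sm a z ha hz, rfl⟩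
      bd := by
        obtain ⟨n, hn⟩ := L.bd
        obtain ⟨m, hm⟩ := M.bd
        refine ⟨n + m, fun x hx i => ?_⟩
        obtain ⟨y, hy, z, hz, rfl⟩ := AddSubgroup.mem_sup.1 hx
        refine (h.add _ _).trans (max_le ((hn y hy i).trans ?_) ((hm z hz i).trans ?_))
        · exact_mod_cast Nat.le_add_right n m
        · exact_mod_cast Nat.le_add_left m n
      op := by
        obtain ⟨n, hn⟩ := L.op
        exact ⟨n, fun x hx => AddSubgroup.mem_sup_left (hn x hx)⟩ }
  inf L M :=
    { S := L.S ⊓ M.S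
      sm := fun a x ha hx => ⟨L.sm a x ha hx.1, M.sm a x ha hx.2⟩
      bd := by
        obtain ⟨n, hn⟩ := L.bd
        exact ⟨n, fun x hx => hn x hx.1⟩
      op := by
        obtain ⟨n, hn⟩ := L.op
        obtain ⟨m, hm⟩ := M.op
        refine ⟨n + m, fun x hx => ⟨hn x fun i => (hx i).trans ?_, hm x fun i => (hx i).trans ?_⟩⟩
        · exact WithBot.coe_le_coe.2 (by push_cast; omega)
        · exact WithBot.coe_le_coe.2 (by push_cast; omega) }
  le_sup_left L M := show L.S ≤ L.S ⊔ M.S from le_sup_left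
  le_sup_right L M := show M.S ≤ L.S ⊔ M.S from le_sup_right
  sup_le L M N h1 h2 := show L.S ⊔ M.S ≤ N.S from sup_le h1 h2
  inf_le_left L M := show L.S ⊓ M.S ≤ L.S from inf_le_left
  inf_le_right L M := show L.S ⊓ M.S ≤ M.S from inf_le_right
  le_inf L M N h1 h2 := show L.S ≤ M.S ⊓ N.S from le_inf h1 h2

theorem La.mem_of_le {h : IsDegN deg} {L M : La h} (e : L ≤ M) {x : Fin 3 → D} (hx : x ∈ L.S) :
    x ∈ M.S := e hx

theorem La.exists_of_lt {h : IsDegN deg} {L M : La h} (e : L < M) : ∃ x ∈ M.S, x ∉ L.S := by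
  by_contra hcon
  push Not at hcon
  exact absurd (show M ≤ L from hcon) (not_le_of_gt e)

/-- the standard lattice -/
def std : La h where
  S :=
    { carrier := {x | ∀ i, deg (x i) ≤ 0}
      add_mem' := fun {x y} hx hy i => (h.add _ _).trans (max_le (hx i) (hy i))
      zero_mem' := fun i => by
        show deg 0 ≤ 0
        rw [h.zero]
        exact bot_le
      neg_mem' := fun {x} hx i => by
        show deg (-x i) ≤ 0
        rw [h.neg]
        exact hx i }
  sm := fun a x ha hx i => by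
    have := deg_mul_le h (a := 0) (b := 0) (by exact_mod_cast ha) (by exact_mod_cast hx i)
    exact_mod_cast this
  bd := ⟨0, fun x hx i => by exact_mod_cast hx i⟩
  op := ⟨0, fun x hx i => by exact_mod_cast hx i⟩

instance : Nonempty (La h) := ⟨std h⟩

/-- scaling -/
def sc (u : D) (hu : u ≠ 0) (L : La h) : La h where
  S := L.S.comap (DistribSMul.toAddMonoidHom (Fin 3 → D) u⁻¹)
  sm := by
    intro a x ha hx
    show u⁻¹ • a • x ∈ L.S
    have e : u⁻¹ • a • x = (u⁻¹ * a * u) • u⁻¹ • x := by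
      rw [smul_smul, smul_smul, mul_assoc, mul_inv_cancel₀ hu, mul_one]
    rw [e]
    refine L.sm _ _ ?_ hx
    obtain ⟨n, hn⟩ := deg_int h hu
    have h1 := deg_inv h hn
    rw [h.mul, h.mul, hn, h1]
    have e2 : ((-n : ℤ) : WithBot ℤ) + deg a + n = deg a := by
      rw [add_comm, ← add_assoc, ← WithBot.coe_add, add_neg_cancel, WithBot.coe_zero, zero_add]
    rw [e2]
    exact ha
  bd := by
    obtain ⟨n, hn⟩ := L.bd
    obtain ⟨z, hz⟩ := deg_int h hu
    refine ⟨n + z.natAbs, fun x hx i => ?_⟩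
    have h1 := hn _ hx i
    have e : x i = u * (u⁻¹ * x i) := by rw [← mul_assoc, mul_inv_cancel₀ hu, one_mul]
    rw [e]
    refine (deg_mul_le h hz.le h1).trans (WithBot.coe_le_coe.2 ?_)
    have h9 := le_abs_self z
    push_cast
    omega
  op := by
    obtain ⟨n, hn⟩ := L.op
    obtain ⟨z, hz⟩ := deg_int h hu
    refine ⟨n + z.natAbs, fun x hx => hn _ fun i => ?_⟩
    show deg (u⁻¹ * x i) ≤ _
    refine (deg_mul_le h (deg_inv h hz).le (hx i)).trans (WithBot.coe_le_coe.2 ?_)
    have h9 := neg_abs_le z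
    push_cast
    omega

theorem mem_sc {h : IsDegN deg} {u : D} (hu : u ≠ 0) (L : La h) (x : Fin 3 → D) :
    x ∈ (sc h u hu L).S ↔ u⁻¹ • x ∈ L.S := Iff.rfl

/-- scaling as an order automorphism -/
def scI (u : D) (hu : u ≠ 0) : La h ≃o La h where
  toFun := sc h u hu
  invFun := sc h u⁻¹ (inv_ne_zero hu)
  left_inv L := by
    apply La.ext'
    ext x
    rw [mem_sc, mem_sc, inv_inv, smul_smul, inv_mul_cancel₀ hu, one_smul]
  right_inv L := by
    apply La.ext'
    ext x
    rw [mem_sc, mem_sc, inv_inv, smul_smul, mul_inv_cancel₀ hu, one_smul]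
  map_rel_iff' := by
    intro L M
    constructor
    · intro e x hx
      have h1 : u • x ∈ (sc h u hu L).S := by
        rw [mem_sc, smul_smul, inv_mul_cancel₀ hu, one_smul]
        exact hx
      have h2 : u • x ∈ (sc h u hu M).S := e h1
      rwa [mem_sc, smul_smul, inv_mul_cancel₀ hu, one_smul] at h2
    · intro e x hx
      exact e hx

theorem mem_pow {h : IsDegN deg} {u : D} (hu : u ≠ 0) (n : ℕ) (L : La h) (x : Fin 3 → D) :
    x ∈ ((scI h u hu ^ n : La h ≃o La h) L).S ↔ (u⁻¹) ^ n • x ∈ L.S := by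
  induction n generalizing L x with
  | zero => rw [pow_zero, pow_zero, one_smul]; exact Iff.rfl
  | succ n ih =>
    rw [nsucc]
    show u⁻¹ • x ∈ ((scI h u hu ^ n : La h ≃o La h) L).S ↔ _
    rw [ih, smul_smul, pow_succ]

/-- a uniformizer -/
structure Unif (deg : D → WithBot ℤ) (u : D) (d : ℕ) : Prop where
  pos : 0 < d
  val : deg u = ((-(d : ℤ) : ℤ) : WithBot ℤ)
  min : ∀ x, deg x < 0 → deg x ≤ deg u

variable {h}

theorem Unif.ne {u : D} {d : ℕ} (hu : Unif deg u d) (h : IsDegN deg) : u ≠ 0 := by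
  rintro rfl
  have := hu.val
  rw [h.zero] at this
  exact absurd this WithBot.bot_ne_coe

theorem deg_pow (h : IsDegN deg) {u : D} {z : ℤ} (hu : deg u = z) (n : ℕ) :
    deg (u ^ n) = ((n * z : ℤ) : WithBot ℤ) := by
  induction n with
  | zero =>
    rw [pow_zero, h.one]
    simp
  | succ n ih =>
    rw [pow_succ, h.mul, ih, hu, ← WithBot.coe_add]
    congr 1
    push_cast
    ring

/-- the vector with one entry -/
def ev (i : Fin 3) (x : D) : Fin 3 → D := Function.update 0 i x

theorem ev_deg (h : IsDegN deg) (i : Fin 3) (x : D) (j : Fin 3) {b : WithBot ℤ} (hx : deg x ≤ b) :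
    deg (ev i x j) ≤ b := by
  unfold ev
  by_cases e : j = i
  · subst e; rw [Function.update_self]; exact hx
  · rw [Function.update_of_ne e]
    show deg 0 ≤ b
    rw [h.zero]
    exact bot_le

theorem no_chain (h : IsDegN deg) {u : D} {d : ℕ} (hu : Unif deg u d) (L : La h) (M : Fin 5 → La h)
    (h0 : M 0 = scI h u (hu.ne h) L) (h4 : M 4 = L) (hlt : ∀ i : Fin 4, M i.castSucc < M i.succ) : False := by
  have hmono : StrictMono M := Fin.strictMono_iff_lt_succ.2 hlt
  choose x hx1 hx2 using fun i : Fin 4 => La.exists_of_lt (hlt i)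
  have hli : ¬ LinearIndependent D x := by
    intro hli
    have := hli.fintype_card_le_finrank
    simp at this
  obtain ⟨g, hg, i1, hi1⟩ := Fintype.not_linearIndependent_iff.1 hli
  obtain ⟨i0, -, hi0⟩ := Finset.exists_max_image (Finset.univ : Finset (Fin 4)) (fun i => deg (g i))
    Finset.univ_nonempty
  have hg0 : g i0 ≠ 0 := by
    intro e
    have h1 := hi0 i1 (Finset.mem_univ _)
    rw [e, h.zero, le_bot_iff] at h1
    exact hi1 ((h.bot _).1 h1)
  obtain ⟨z, hz⟩ := deg_int h hg0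
  obtain ⟨c, hc⟩ : ∃ c : Fin 4 → D, ∀ i, c i = (g i0)⁻¹ * g i := ⟨_, fun i => rfl⟩
  have hcs : ∑ i, c i • x i = 0 := by
    have : ∑ i, c i • x i = (g i0)⁻¹ • ∑ i, g i • x i := by
      rw [Finset.smul_sum]
      exact Finset.sum_congr rfl fun i _ => by rw [hc, mul_smul]
    rw [this, hg, smul_zero]
  have hcd : ∀ i, deg (c i) ≤ 0 := by
    intro i
    rw [hc]
    have h1 := hi0 i (Finset.mem_univ _)
    rw [hz] at h1
    have := deg_mul_le h (deg_inv h hz).le h1
    rw [neg_add_cancel] at this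
    exact_mod_cast this
  have hc0 : deg (c i0) = 0 := by
    rw [hc, inv_mul_cancel₀ hg0, h.one]
  -- the last coefficient of degree zero
  obtain ⟨j, hj1, hj2⟩ : ∃ j, deg (c j) = 0 ∧ ∀ i, j < i → deg (c i) < 0 := by
    obtain ⟨j, hj, hmax⟩ := Finset.exists_max_image
      ((Finset.univ : Finset (Fin 4)).filter (fun i => deg (c i) = 0)) id
      ⟨i0, Finset.mem_filter.2 ⟨Finset.mem_univ _, hc0⟩⟩
    refine ⟨j, (Finset.mem_filter.1 hj).2, fun i hi => lt_of_le_of_ne (hcd i) fun e => ?_⟩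
    exact absurd (hmax i (Finset.mem_filter.2 ⟨Finset.mem_univ _, e⟩)) (not_le_of_gt hi)
  apply hx2 j
  have hcj : c j ≠ 0 := by
    intro e
    rw [e, h.zero] at hj1
    exact absurd hj1 (WithBot.bot_ne_coe (a := (0 : ℤ)))
  have hrest : ∀ i, i ≠ j → c i • x i ∈ (M j.castSucc).S := by
    intro i hi
    rcases lt_or_gt_of_ne hi with hlt' | hgt
    · refine (M j.castSucc).sm _ _ (hcd i) ?_
      have h1 : M i.succ ≤ M j.castSucc := hmono.monotone (by
        rw [Fin.le_def]
        simp only [Fin.val_succ, Fin.val_castSucc]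
        have := Fin.lt_def.1 hlt'
        omega)
      exact h1 (hx1 i)
    · have h1 : M 0 ≤ M j.castSucc := hmono.monotone (Fin.zero_le _)
      apply h1
      rw [h0]
      show u⁻¹ • c i • x i ∈ L.S
      rw [smul_smul]
      refine L.sm _ _ ?_ ?_
      · have h2 := hu.min _ (hj2 i hgt)
        rw [hu.val] at h2
        have := deg_mul_le h (deg_inv h hu.val).le h2
        rw [neg_add_cancel] at this
        exact_mod_cast this
      · have h3 : M i.succ ≤ M 4 := hmono.monotone (Fin.le_last _)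
        rw [h4] at h3
        exact h3 (hx1 i)
  have hsum : c j • x j = -∑ i ∈ Finset.univ.erase j, c i • x i := by
    rw [eq_neg_iff_add_eq_zero, Finset.add_sum_erase _ (fun i => c i • x i) (Finset.mem_univ j)]
    exact hcs
  have h5 : c j • x j ∈ (M j.castSucc).S := by
    rw [hsum]
    exact AddSubgroup.neg_mem _ (AddSubgroup.sum_mem _ fun i hi => hrest i (Finset.ne_of_mem_erase hi))
  have h6 : x j = (c j)⁻¹ • c j • x j := by rw [smul_smul, inv_mul_cancel₀ hcj, one_smul]
  rw [h6]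
  refine (M j.castSucc).sm _ _ ?_ h5
  have h7 : deg (c j) = ((0 : ℤ) : WithBot ℤ) := hj1
  rw [deg_inv h h7]
  exact le_of_eq (by simp)

/-- scaling by a uniformizer is an order automorphism of length three -/
theorem bl_la (h : IsDegN deg) {u : D} {d : ℕ} (hu : Unif deg u d) : Bl (scI h u (hu.ne h)) where
  lt := by
    intro L
    have hle : scI h u (hu.ne h) L ≤ L := by
      intro x hx
      have h1 : u⁻¹ • x ∈ L.S := hx
      have h2 := L.sm u _ (by rw [hu.val]; exact_mod_cast (by omega : (-(d : ℤ)) ≤ 0)) h1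
      rwa [smul_smul, mul_inv_cancel₀ (hu.ne h), one_smul] at h2
    refine lt_of_le_of_ne hle fun e => ?_
    obtain ⟨n, hn⟩ := L.bd
    obtain ⟨m, hm⟩ := L.op
    have h1 : ∀ k : ℕ, ((scI h u (hu.ne h)) ^ k : La h ≃o La h) L = L := by
      intro k
      induction k with
      | zero => rfl
      | succ k ih => rw [nsucc, ih, e]
    have h2 : ev 0 (u ^ m) ∈ L.S := by
      refine hm _ fun i => ev_deg h 0 _ i ?_
      rw [deg_pow h hu.val]
      refine WithBot.coe_le_coe.2 ?_
      have := hu.pos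
      nlinarith
    have h3 : (u⁻¹) ^ (m + n + 1) • ev 0 (u ^ m) ∈ L.S := by
      rw [← mem_pow (hu.ne h), h1]
      exact h2
    have h4 := hn _ h3 0
    have h5 : ((u⁻¹) ^ (m + n + 1) • ev 0 (u ^ m)) 0 = (u⁻¹) ^ (m + n + 1) * u ^ m := by
      simp [ev]
    rw [h5, h.mul, deg_pow h (deg_inv h hu.val), deg_pow h hu.val, ← WithBot.coe_add,
      WithBot.coe_le_coe] at h4
    have := hu.pos
    push_cast at h4
    nlinarith
  co := by
    intro L M
    obtain ⟨n, hn⟩ := M.bd
    obtain ⟨m, hm⟩ := L.op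
    refine ⟨n + m, fun x hx => hm x fun i => ?_⟩
    rw [mem_pow] at hx
    have h1 := hn _ hx i
    have e : x i = u ^ (n + m) * ((u⁻¹) ^ (n + m) * x i) := by
      rw [← mul_assoc, inv_pow, mul_inv_cancel₀ (pow_ne_zero _ (hu.ne h)), one_mul]
    rw [e]
    refine (deg_mul_le h (deg_pow h hu.val _).le h1).trans (WithBot.coe_le_coe.2 ?_)
    have := hu.pos
    push_cast
    nlinarith
  ch := by
    intro L M1 M2 M3 h1 h2 h3 h4
    refine no_chain h hu L ![scI h u (hu.ne h) L, M1, M2, M3, L] rfl rfl fun i => ?_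
    fin_cases i
    · exact h1
    · exact h2
    · exact h3
    · exact h4

end Pool.Agent.Run7.h390.BD
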