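import Pool.Agent.Run7.h909.TD.Main

/-!
# Lattices with an order automorphism of length three

Owner helper390. Let `Λ` be a lattice (ordered set) with an order automorphism `t`, `t L < L`, such that
there are no chains `t L < M₁ < M₂ < M₃ < L`, and such that some `t ^ n M` is below `L`, for all `L`, `M`.
The orbits of the powers of `t` are the vertices of a complex of dimension two of nonpositive curvature
which is simply connected.
-/

set_option autoImplicit false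

namespace Pool.Agent.Run7.h390.BD

open _root_.Run7.h909.TD

variable {Λ : Type} [Lattice Λ]

/-- an order automorphism of length three -/
structure Bl (t : Λ ≃o Λ) : Prop where
  lt : ∀ L, t L < L
  co : ∀ L M, ∃ n : ℕ, (t ^ n : Λ ≃o Λ) M ≤ L
  ch : ∀ L M₁ M₂ M₃, t L < M₁ → M₁ < M₂ → M₂ < M₃ → ¬ M₃ < L

variable {t : Λ ≃o Λ}

theorem zadd (a b : ℤ) (L : Λ) : (t ^ (a + b) : Λ ≃o Λ) L = (t ^ a : Λ ≃o Λ) ((t ^ b : Λ ≃o Λ) L) := by
  rw [zpow_add]; rfl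

theorem zzero (L : Λ) : (t ^ (0 : ℤ) : Λ ≃o Λ) L = L := by rw [zpow_zero]; rfl

theorem zone (L : Λ) : (t ^ (1 : ℤ) : Λ ≃o Λ) L = t L := by rw [zpow_one]

theorem zsucc (a : ℤ) (L : Λ) : (t ^ (a + 1) : Λ ≃o Λ) L = t ((t ^ a : Λ ≃o Λ) L) := by
  rw [add_comm, zadd, zone]

theorem zcomm (a : ℤ) (L : Λ) : (t ^ a : Λ ≃o Λ) (t L) = t ((t ^ a : Λ ≃o Λ) L) := by
  rw [← zone (t := t) L, ← zadd, zsucc]

theorem zneg (a : ℤ) (L : Λ) : (t ^ (-a) : Λ ≃o Λ) ((t ^ a : Λ ≃o Λ) L) = L := by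
  rw [← zadd, neg_add_cancel, zzero]

namespace Bl

variable (h : Bl t)

include h

theorem nle (n : ℕ) (L : Λ) : (t ^ (n : ℤ) : Λ ≃o Λ) L ≤ L := by
  induction n with
  | zero => exact (zzero L).le
  | succ n ih =>
    push_cast
    rw [zsucc]
    exact (h.lt _).le.trans ih

theorem zle {a : ℤ} (ha : 0 ≤ a) (L : Λ) : (t ^ a : Λ ≃o Λ) L ≤ L := by
  obtain ⟨n, rfl⟩ := Int.eq_ofNat_of_zero_le ha
  exact h.nle n L

theorem zle1 {a : ℤ} (ha : 1 ≤ a) (L : Λ) : (t ^ a : Λ ≃o Λ) L ≤ t L := by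
  have h1 : a = (a - 1) + 1 := by ring
  rw [h1, zadd, zone]
  exact h.zle (by omega) _

theorem anti {a b : ℤ} (hab : a ≤ b) (L : Λ) : (t ^ b : Λ ≃o Λ) L ≤ (t ^ a : Λ ≃o Λ) L := by
  have h1 : b = (b - a) + a := by ring
  rw [h1, zadd]
  exact h.zle (by omega) _

theorem zge {a : ℤ} (ha : a ≤ 0) (L : Λ) : L ≤ (t ^ a : Λ ≃o Λ) L := by
  have h1 := h.anti ha L
  rwa [zzero] at h1

theorem zinj {a : ℤ} {L : Λ} (e : (t ^ a : Λ ≃o Λ) L = L) : a = 0 := by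
  rcases lt_trichotomy a 0 with ha | ha | ha
  · exfalso
    have h1 := h.zle1 (a := -a) (by omega) ((t ^ a : Λ ≃o Λ) L)
    rw [zneg, e] at h1
    exact absurd (h.lt L) (not_lt_of_ge h1)
  · exact ha
  · exfalso
    have h1 := h.zle1 (a := a) (by omega) L
    rw [e] at h1
    exact absurd (h.lt L) (not_lt_of_ge h1)

end Bl

/-- same orbit -/
def st (t : Λ ≃o Λ) : Setoid Λ where
  r L M := ∃ a : ℤ, (t ^ a : Λ ≃o Λ) L = M
  iseqv := ⟨fun L => ⟨0, zzero L⟩, fun {L M} ⟨a, ha⟩ => ⟨-a, by rw [← ha, zneg]⟩,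
    fun {L M N} ⟨a, ha⟩ ⟨b, hb⟩ => ⟨b + a, by rw [zadd, ha, hb]⟩⟩

/-- the vertices -/
def Vx (t : Λ ≃o Λ) : Type := Quotient (st t)

/-- the vertex of a lattice -/
def cl (t : Λ ≃o Λ) (L : Λ) : Vx t := Quotient.mk (st t) L

theorem cl_eq {L M : Λ} : cl t L = cl t M ↔ ∃ a : ℤ, (t ^ a : Λ ≃o Λ) L = M :=
  ⟨fun e => Quotient.exact (s := st t) e, fun e => Quotient.sound (s := st t) e⟩

theorem cl_z (a : ℤ) (L : Λ) : cl t ((t ^ a : Λ ≃o Λ) L) = cl t L := (cl_eq.2 ⟨a, rfl⟩).symm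

theorem cl_t (L : Λ) : cl t (t L) = cl t L := by
  have := cl_z (t := t) 1 L
  rwa [zone] at this

theorem cl_surj (x : Vx t) : ∃ L, cl t L = x := Quotient.exists_rep x

/-- strictly between -/
def Bt (t : Λ ≃o Λ) (L M : Λ) : Prop := t L < M ∧ M < L

theorem Bt.rot {L M : Λ} (e : Bt t L M) : Bt t M (t L) := ⟨t.lt_iff_lt.2 e.2, e.1⟩

theorem Bt.z {L M : Λ} (e : Bt t L M) (a : ℤ) : Bt t ((t ^ a : Λ ≃o Λ) L) ((t ^ a : Λ ≃o Λ) M) := by
  refine ⟨?_, (t ^ a : Λ ≃o Λ).lt_iff_lt.2 e.2⟩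
  rw [← zcomm]
  exact (t ^ a : Λ ≃o Λ).lt_iff_lt.2 e.1

/-- the graph -/
def Tg (h : Bl t) : SimpleGraph (Vx t) where
  Adj x y := ∃ L M, cl t L = x ∧ cl t M = y ∧ Bt t L M
  symm := ⟨by
    rintro x y ⟨L, M, rfl, rfl, e⟩
    exact ⟨M, t L, rfl, cl_t L, e.rot⟩⟩
  loopless := ⟨by
    rintro x ⟨L, M, rfl, h2, e⟩
    obtain ⟨a, rfl⟩ := cl_eq.1 h2.symm
    rcases le_or_gt a 0 with ha | ha
    · exact absurd e.2 (not_lt_of_ge (h.zge ha L))
    · exact absurd e.1 (not_lt_of_ge (h.zle1 (by omega) L))⟩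

theorem adj_of {h : Bl t} {L M : Λ} (e : Bt t L M) : (Tg h).Adj (cl t L) (cl t M) := ⟨L, M, rfl, rfl, e⟩

/-- normalization with respect to a representative -/
theorem nrm {h : Bl t} {L : Λ} {y : Vx t} (e : (Tg h).Adj (cl t L) y) : ∃ M, cl t M = y ∧ Bt t L M := by
  obtain ⟨L', M', h1, rfl, h3⟩ := e
  obtain ⟨a, rfl⟩ := cl_eq.1 h1
  exact ⟨_, cl_z a M', h3.z a⟩

theorem uni (h : Bl t) {L M M' : Λ} (e : Bt t L M) (e' : Bt t L M') (hm : cl t M = cl t M') : M = M' := by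
  obtain ⟨a, rfl⟩ := cl_eq.1 hm
  rcases lt_trichotomy a 0 with ha | ha | ha
  · exfalso
    have h1 : (t ^ (-1 : ℤ) : Λ ≃o Λ) M ≤ (t ^ a : Λ ≃o Λ) M := h.anti (by omega) M
    have h2 : (t ^ (-1 : ℤ) : Λ ≃o Λ) (t L) < (t ^ (-1 : ℤ) : Λ ≃o Λ) M :=
      (t ^ (-1 : ℤ) : Λ ≃o Λ).lt_iff_lt.2 e.1
    rw [← zone (t := t) L, zneg] at h2
    exact absurd (e'.2.trans (h2.trans_le h1)) (lt_irrefl _)
  · rw [ha, zzero]
  · exfalso
    have h1 := h.zle1 (a := a) (by omega) M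
    have h2 : t M < t L := t.lt_iff_lt.2 e.2
    exact absurd ((e'.1.trans_le h1).trans h2) (lt_irrefl _)

/-- adjacent neighbours are comparable -/
theorem cmp {h : Bl t} {L M N : Λ} (e : Bt t L M) (e' : Bt t L N)
    (hmn : (Tg h).Adj (cl t M) (cl t N)) : M < N ∨ N < M := by
  obtain ⟨N', h1, h2⟩ := nrm hmn
  obtain ⟨a, rfl⟩ := cl_eq.1 h1.symm
  rcases lt_trichotomy a 0 with ha | ha | ha
  · exfalso
    have h3 : (t ^ (-1 : ℤ) : Λ ≃o Λ) N ≤ (t ^ a : Λ ≃o Λ) N := h.anti (by omega) N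
    have h4 : (t ^ (-1 : ℤ) : Λ ≃o Λ) (t L) < (t ^ (-1 : ℤ) : Λ ≃o Λ) N :=
      (t ^ (-1 : ℤ) : Λ ≃o Λ).lt_iff_lt.2 e'.1
    rw [← zone (t := t) L, zneg] at h4
    exact absurd ((h4.trans_le h3).trans (h2.2.trans e.2)) (lt_irrefl _)
  · right
    have := h2.2
    rwa [ha, zzero] at this
  · left
    have h3 := h.zle1 (a := a) (by omega) N
    have h4 : t M < t N := h2.1.trans_le h3
    exact t.lt_iff_lt.1 h4

theorem bt_chain {L M N : Λ} (e : Bt t L M) (e' : Bt t L N) (hmn : M < N) : Bt t N M :=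
  ⟨(t.lt_iff_lt.2 e'.2).trans e.1, hmn⟩

/-- the link -/
theorem no_short (h : Bl t) {L : Λ} (M : ℤ → Λ) (hM : ∀ i, Bt t L (M i))
    (hc : ∀ i, M i < M (i + 1) ∨ M (i + 1) < M i) (k : ℕ) (hk : 3 ≤ k)
    (hp : ∀ i j : ℤ, M i = M j ↔ (k : ℤ) ∣ i - j) : 6 ≤ k := by
  have up : ∀ i, M i < M (i + 1) → M (i + 1 + 1) < M (i + 1) := by
    intro i h1
    rcases hc (i + 1) with h2 | h2
    · exact absurd (hM (i + 1 + 1)).2 (h.ch L _ _ _ (hM i).1 h1 h2)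
    · exact h2
  have dn : ∀ i, M (i + 1) < M i → M (i + 1) < M (i + 1 + 1) := by
    intro i h1
    rcases hc (i + 1) with h2 | h2
    · exact h2
    · exact absurd (hM i).2 (h.ch L _ _ _ (hM (i + 1 + 1)).1 h2 h1)
  have hper : ∀ i : ℤ, M (i + k) = M i := fun i => (hp _ _).2 ⟨1, by ring⟩
  have hdis : ∀ i : ℤ, ¬ (k : ℤ) ∣ i - 0 → M i ≠ M 0 := fun i hi e => hi ((hp _ _).1 e)
  -- the four cycle
  have four : ∀ i : ℤ, M i < M (i + 1) → M (i + 2) < M (i + 1) → M (i + 2) < M (i + 3) →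
      M i < M (i + 3) → M i ≠ M (i + 2) → M (i + 1) ≠ M (i + 3) → False := by
    intro i a1 a2 a3 a4 n1 n2
    have x1 : M i ≤ M (i + 1) ⊓ M (i + 3) := le_inf a1.le a4.le
    have x2 : M (i + 2) ≤ M (i + 1) ⊓ M (i + 3) := le_inf a2.le a3.le
    have x3 : M (i + 1) ⊓ M (i + 3) ≤ M (i + 1) := inf_le_left
    have y1 : M i < M (i + 1) ⊓ M (i + 3) := by
      refine lt_of_le_of_ne x1 fun e => ?_
      rw [← e] at x2
      have hh : M (i + 2) < M i := lt_of_le_of_ne x2 (Ne.symm n1)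
      exact h.ch L _ _ _ (hM (i + 2)).1 hh a1 (hM (i + 1)).2
    have y2 : M (i + 1) ⊓ M (i + 3) < M (i + 1) := by
      refine lt_of_le_of_ne x3 fun e => ?_
      have hh : M (i + 1) ≤ M (i + 3) := by
        rw [← e]; exact inf_le_right
      have hh' : M (i + 1) < M (i + 3) := lt_of_le_of_ne hh n2
      exact h.ch L _ _ _ (hM i).1 a1 hh' (hM (i + 3)).2
    exact h.ch L _ _ _ (hM i).1 y1 y2 (hM (i + 1)).2
  by_contra hk6
  have hk' : k = 3 ∨ k = 4 ∨ k = 5 := by omega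
  have key : ∀ i : ℤ, M i < M (i + 1) → False := by
    intro i h0
    have h1 := up i h0
    have h2 := dn (i + 1) h1
    have h3 := up _ h2
    have h4 := dn _ h3
    have h5 := up _ h4
    rcases hk' with rfl | rfl | rfl
    · have e1 : i + 1 + 1 + 1 = i + (3 : ℕ) := by push_cast; ring
      have e2 : i + 1 + 1 + 1 + 1 = (i + 1) + (3 : ℕ) := by push_cast; ring
      rw [e1] at h3 e2
      rw [e2, hper, hper] at h3
      exact absurd (h0.trans h3) (lt_irrefl _)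
    · have e0 : i + 1 + 1 = i + 2 := by ring
      have e1 : i + 1 + 1 + 1 = i + 3 := by ring
      have e2 : i + 1 + 1 + 1 + 1 = i + (4 : ℕ) := by push_cast; ring
      rw [e2, e1, hper] at h3
      rw [e1, e0] at h2
      rw [e0] at h1
      refine four i h0 h1 h2 h3 ?_ ?_
      · intro e
        have := (hp _ _).1 e
        omega
      · intro e
        have := (hp _ _).1 e
        omega
    · have e2 : i + 1 + 1 + 1 + 1 + 1 = i + (5 : ℕ) := by push_cast; ring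
      have e3 : i + 1 + 1 + 1 + 1 + 1 + 1 = (i + 1) + (5 : ℕ) := by push_cast; ring
      rw [e3, e2, hper, hper] at h5
      exact absurd (h0.trans h5) (lt_irrefl _)
  rcases hc 0 with h1 | h1
  · exact key 0 h1
  · exact key (0 + 1) (dn 0 h1)

end Pool.Agent.Run7.h390.BD
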