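import Pool.Agent.Run7.h390.BD.Cpx

/-!
# Simple connectedness

Owner helper390. A lattice `L` is pushed to `L ⊔ t ^ (e - 1) L₀`, where `e` is the least number
with `t ^ e L₀ ≤ L`.
-/

set_option autoImplicit false

namespace Pool.Agent.Run7.h390.BD

open _root_.Run7.h909.TD

variable {Λ : Type} [Lattice Λ] {t : Λ ≃o Λ}

theorem npow (n : ℕ) (L : Λ) : (t ^ (n : ℤ) : Λ ≃o Λ) L = (t ^ n : Λ ≃o Λ) L := by
  rw [zpow_natCast]

/-- normalized -/
def Nz (t : Λ ≃o Λ) (L₀ L : Λ) : Prop := L ≤ L₀ ∧ ¬ L ≤ t L₀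

theorem exists_nz (h : Bl t) (L₀ L : Λ) : ∃ a : ℤ, Nz t L₀ ((t ^ a : Λ ≃o Λ) L) := by
  obtain ⟨n, hn⟩ := h.co L₀ L
  obtain ⟨m, hm⟩ := h.co L L₀
  rw [← npow] at hn hm
  obtain ⟨a, ha, hmin⟩ := Int.exists_least_of_bdd (P := fun a : ℤ => (t ^ a : Λ ≃o Λ) L ≤ L₀)
    ⟨-m, fun a ha => by
      by_contra hlt
      have h1 : (t ^ a : Λ ≃o Λ) ((t ^ (m : ℤ) : Λ ≃o Λ) L₀) ≤ L₀ :=
        ((t ^ a : Λ ≃o Λ).monotone hm).trans ha
      rw [← zadd] at h1
      have h2 : (t ^ (-1 : ℤ) : Λ ≃o Λ) L₀ ≤ (t ^ (a + m) : Λ ≃o Λ) L₀ := h.anti (by omega) L₀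
      have h3 := h.lt ((t ^ (-1 : ℤ) : Λ ≃o Λ) L₀)
      rw [← zsucc, show (-1 : ℤ) + 1 = 0 by norm_num, zzero] at h3
      exact absurd (h3.trans_le (h2.trans h1)) (lt_irrefl _)⟩ ⟨n, hn⟩
  refine ⟨a, ha, fun hle => ?_⟩
  have h1 : (t ^ (a - 1) : Λ ≃o Λ) L ≤ L₀ := by
    have h2 : a = (a - 1) + 1 := by ring
    rw [h2, zsucc] at hle
    exact t.le_iff_le.1 hle
  have := hmin _ h1
  omega

theorem nz_uni (h : Bl t) {L₀ L : Λ} {a : ℤ} (h1 : Nz t L₀ L) (h2 : Nz t L₀ ((t ^ a : Λ ≃o Λ) L)) :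
    a = 0 := by
  rcases lt_trichotomy a 0 with ha | ha | ha
  · exfalso
    apply h1.2
    have h3 : (t ^ (-1 : ℤ) : Λ ≃o Λ) L ≤ L₀ := (h.anti (by omega) L).trans h2.1
    have h4 := t.monotone h3
    rwa [← zsucc, show (-1 : ℤ) + 1 = 0 by norm_num, zzero] at h4
  · exact ha
  · exfalso
    exact h2.2 ((h.zle1 (by omega) L).trans (t.monotone h1.1))

theorem adj_nz {h : Bl t} {L₀ L : Λ} (hL : Nz t L₀ L) {y : Vx t} (e : (Tg h).Adj (cl t L) y) :
    ∃ M, cl t M = y ∧ Nz t L₀ M ∧ (Bt t L M ∨ Bt t M L) := by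
  obtain ⟨M, h1, h2⟩ := nrm e
  by_cases hM : M ≤ t L₀
  · have h3 : t ((t ^ (-1 : ℤ) : Λ ≃o Λ) M) = M := by
      rw [← zsucc, show (-1 : ℤ) + 1 = 0 by norm_num, zzero]
    refine ⟨(t ^ (-1 : ℤ) : Λ ≃o Λ) M, by rw [cl_z, h1], ⟨?_, ?_⟩, Or.inr ⟨?_, ?_⟩⟩
    · rw [← t.le_iff_le, h3]; exact hM
    · intro h4
      apply hL.2
      have h5 : t L ≤ t ((t ^ (-1 : ℤ) : Λ ≃o Λ) M) := by
        rw [h3]; exact h2.1.le
      exact (t.le_iff_le.1 h5).trans h4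
    · rw [h3]; exact h2.2
    · rw [← t.lt_iff_lt, h3]; exact h2.1
  · exact ⟨M, h1, ⟨h2.2.le.trans hL.1, hM⟩, Or.inl h2⟩

/-- the depth -/
noncomputable def ep (t : Λ ≃o Λ) (L₀ L : Λ) : ℕ := sInf {n : ℕ | (t ^ n : Λ ≃o Λ) L₀ ≤ L}

/-- the push -/
noncomputable def pu (t : Λ ≃o Λ) (L₀ L : Λ) : Λ := L ⊔ (t ^ (ep t L₀ L - 1) : Λ ≃o Λ) L₀

theorem ep_mem (h : Bl t) (L₀ L : Λ) : (t ^ (ep t L₀ L) : Λ ≃o Λ) L₀ ≤ L :=
  Nat.sInf_mem (s := {n : ℕ | (t ^ n : Λ ≃o Λ) L₀ ≤ L}) (h.co L L₀)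

theorem ep_le {L₀ L : Λ} {n : ℕ} (hn : (t ^ n : Λ ≃o Λ) L₀ ≤ L) : ep t L₀ L ≤ n := Nat.sInf_le hn

theorem nanti (h : Bl t) {a b : ℕ} (hab : a ≤ b) (L : Λ) : (t ^ b : Λ ≃o Λ) L ≤ (t ^ a : Λ ≃o Λ) L := by
  rw [← npow, ← npow]
  exact h.anti (by exact_mod_cast hab) L

theorem nsucc (n : ℕ) (L : Λ) : (t ^ (n + 1) : Λ ≃o Λ) L = t ((t ^ n : Λ ≃o Λ) L) := by
  rw [← npow, ← npow, ← zsucc]; push_cast; rfl

theorem ep_pu {L₀ L : Λ} (he : ep t L₀ L ≠ 0) : ep t L₀ (pu t L₀ L) < ep t L₀ L := by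
  have h1 : ep t L₀ (pu t L₀ L) ≤ ep t L₀ L - 1 := ep_le le_sup_right
  omega

theorem ep_zero (h : Bl t) {L₀ L : Λ} (hL : L ≤ L₀) (he : ep t L₀ L = 0) : L = L₀ := by
  have h1 := ep_mem h L₀ L
  rw [he, pow_zero] at h1
  exact le_antisymm hL h1

theorem ep_mono (h : Bl t) {L₀ L M : Λ} (hLM : M ≤ L) : ep t L₀ L ≤ ep t L₀ M :=
  ep_le ((ep_mem h L₀ M).trans hLM)

theorem ep_succ (h : Bl t) {L₀ L M : Λ} (hLM : t L ≤ M) : ep t L₀ M ≤ ep t L₀ L + 1 := by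
  apply ep_le
  rw [nsucc]
  exact (t.monotone (ep_mem h L₀ L)).trans hLM

theorem pu_nz (h : Bl t) {L₀ L : Λ} (hL : Nz t L₀ L) : Nz t L₀ (pu t L₀ L) := by
  refine ⟨sup_le hL.1 ?_, fun e => hL.2 (le_sup_left.trans e)⟩
  rw [← npow]
  exact h.nle _ _

theorem pu_bt (h : Bl t) {L₀ L : Λ} (hL : Nz t L₀ L) (he : ep t L₀ L ≠ 0) : Bt t (pu t L₀ L) L := by
  obtain ⟨m, hm⟩ := Nat.exists_eq_succ_of_ne_zero he
  have hp : pu t L₀ L = L ⊔ (t ^ m : Λ ≃o Λ) L₀ := by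
    unfold pu
    rw [hm]
    rfl
  constructor
  · refine lt_of_le_of_ne ?_ fun e => ?_
    · rw [hp, map_sup, ← nsucc]
      refine sup_le (h.lt L).le ?_
      have := ep_mem h L₀ L
      rwa [hm] at this
    · apply hL.2
      rw [← e]
      exact t.monotone (pu_nz h hL).1
  · refine lt_of_le_of_ne (hp ▸ le_sup_left) fun e => ?_
    have h1 : (t ^ m : Λ ≃o Λ) L₀ ≤ L := by
      rw [e, hp]
      exact le_sup_right
    have := ep_le h1
    omega

section coc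

variable {Γ : Type} [Group Γ] (c : Vx t → Vx t → Γ)

/-- the potential -/
noncomputable def pot (L₀ : Λ) (L : Λ) : Γ :=
  if _he : ep t L₀ L = 0 then 1 else pot L₀ (pu t L₀ L) * c (cl t (pu t L₀ L)) (cl t L)
termination_by ep t L₀ L
decreasing_by exact ep_pu _he

theorem pot_pu {L₀ L : Λ} (he : ep t L₀ L ≠ 0) :
    pot c L₀ L = pot c L₀ (pu t L₀ L) * c (cl t (pu t L₀ L)) (cl t L) := by
  rw [pot, dif_neg he]

variable {c}

theorem pot_key (h : Bl t) (hc : Coc (Tg h) (Fl (Tg h)) c) (L₀ : Λ) (n : ℕ) :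
    ∀ L M : Λ, Nz t L₀ L → Nz t L₀ M → Bt t L M → ep t L₀ M ≤ n →
      c (cl t L) (cl t M) = (pot c L₀ L)⁻¹ * pot c L₀ M := by
  induction n with
  | zero =>
    intro L M hL hM hLM he
    exfalso
    have := ep_zero h hM.1 (by omega)
    exact absurd (hLM.2.trans_le hL.1) (by rw [this]; exact lt_irrefl _)
  | succ n ih =>
    intro L M hL hM hLM he
    have he0 : ep t L₀ M ≠ 0 := by
      intro e
      have := ep_zero h hM.1 e
      exact absurd (hLM.2.trans_le hL.1) (by rw [this]; exact lt_irrefl _)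
    have hb := pu_bt h hM he0
    have hz := pu_nz h hM
    have hl := ep_pu he0
    have hp := pot_pu c he0
    have h1 := ep_mono h (L₀ := L₀) hLM.2.le
    have h2 := ep_succ h (L₀ := L₀) hLM.1.le
    -- the potential at `M` through a normalized lattice `P` above the push of `M`
    have thr : ∀ P : Λ, Nz t L₀ P → Bt t P M → pu t L₀ M ≤ P →
        pot c L₀ M = pot c L₀ P * c (cl t P) (cl t M) := by
      intro P hP hPM hle
      rcases hle.eq_or_lt with e | e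
      · rw [← e]; exact hp
      · have hb' : Bt t P (pu t L₀ M) := ⟨hPM.1.trans hb.2, e⟩
        have h3 := ih P (pu t L₀ M) hP hz hb' (by omega)
        have h4 := coc_tri hc (adj_of (h := h) hb') (adj_of (h := h) hb) (adj_of (h := h) hPM)
        rw [hp, ← h4, h3]
        group
    rcases Nat.lt_or_ge (ep t L₀ L) (ep t L₀ M) with h3 | h3
    · have h4 : pu t L₀ M ≤ L := by
        refine sup_le hLM.2.le ?_
        exact (nanti h (by omega) L₀).trans (ep_mem h L₀ L)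
      rw [thr L hL hLM h4]
      group
    · have he1 : ep t L₀ L = ep t L₀ M := le_antisymm h1 h3
      have hbL := pu_bt h hL (by omega)
      have hzL := pu_nz h hL
      have hpL := pot_pu c (t := t) (L₀ := L₀) (L := L) (by omega)
      have h4 : pu t L₀ M ≤ pu t L₀ L := by
        unfold pu
        rw [he1]
        exact sup_le_sup_right hLM.2.le _
      have h5 : Bt t (pu t L₀ L) M := by
        refine ⟨lt_of_le_of_ne ?_ fun e => ?_, hLM.2.trans hbL.2⟩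
        · unfold pu
          rw [map_sup, ← nsucc, he1]
          refine sup_le hLM.1.le ?_
          have := ep_mem h L₀ M
          rwa [Nat.sub_add_cancel (by omega)]
        · apply hM.2
          rw [← e]
          exact t.monotone hzL.1
      have h6 := coc_tri hc (adj_of (h := h) hbL) (adj_of (h := h) hLM) (adj_of (h := h) h5)
      rw [thr _ hzL h5 h4, hpL, ← h6]
      group

theorem sc_bl (h : Bl t) [hne : Nonempty Λ] : SC (Tg h) (Fl (Tg h)) := by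
  obtain ⟨L₀⟩ := hne
  have hrep : ∀ x : Vx t, ∃ L, cl t L = x ∧ Nz t L₀ L := by
    intro x
    obtain ⟨L, rfl⟩ := cl_surj x
    obtain ⟨a, ha⟩ := exists_nz h L₀ L
    exact ⟨_, cl_z a L, ha⟩
  constructor
  · have h1 : ∀ (n : ℕ) (L : Λ), Nz t L₀ L → ep t L₀ L ≤ n → (Tg h).Reachable (cl t L) (cl t L₀) := by
      intro n
      induction n with
      | zero =>
        intro L hL he
        rw [ep_zero h hL.1 (by omega)]
      | succ n ih =>
        intro L hL he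
        by_cases he0 : ep t L₀ L = 0
        · rw [ep_zero h hL.1 he0]
        · have h2 := ep_pu he0
          exact (adj_of (h := h) (pu_bt h hL he0)).symm.reachable.trans
            (ih _ (pu_nz h hL) (by omega))
    have h2 : ∀ x, (Tg h).Reachable x (cl t L₀) := by
      intro x
      obtain ⟨L, rfl, hL⟩ := hrep x
      exact h1 _ L hL le_rfl
    haveI : Nonempty (Vx t) := ⟨cl t L₀⟩
    exact SimpleGraph.Connected.mk fun x y => (h2 x).trans (h2 y).symm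
  · intro Γ _ c hc
    choose rp hr1 hr2 using hrep
    refine ⟨fun x => pot c L₀ (rp x), fun x y hxy => ?_⟩
    have h1 : (Tg h).Adj (cl t (rp x)) y := by rw [hr1]; exact hxy
    obtain ⟨M, h2, h3, h4⟩ := adj_nz (hr2 x) h1
    have h5 : M = rp y := by
      obtain ⟨a, ha⟩ := cl_eq.1 (h2.trans (hr1 y).symm)
      have := nz_uni h h3 (ha ▸ hr2 y)
      rw [← ha, this, zzero]
    subst h5
    rcases h4 with h4 | h4
    · have := pot_key h hc L₀ _ _ _ (hr2 x) (hr2 y) h4 le_rfl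
      rw [hr1, hr1] at this
      exact this
    · have := pot_key h hc L₀ _ _ _ (hr2 y) (hr2 x) h4 le_rfl
      rw [hr1, hr1] at this
      have h6 := hc.inv x y hxy
      rw [mul_eq_one_iff_eq_inv, this] at h6
      rw [h6]
      group

end coc

end Pool.Agent.Run7.h390.BD
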